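import Pool.Agent.helper30.Urn.Cyc

/-!
# The chain with ghost colours becomes monochromatic
-/

namespace Pool.H30.Urn

open Finset Filter Topology
open scoped Classical ComplexConjugate

variable {k s : ℕ}

/-- states with at least one ball -/
abbrev ES (k s : ℕ) := {x : ZMod k → ℕ × Fin s // ∃ i, (x i).1 ≠ 0}

noncomputable def tot [NeZero k] (x : ZMod k → ℕ × Fin s) : ℕ := ∑ i, (x i).1

lemma tot_pos [NeZero k] {x : ZMod k → ℕ × Fin s} (h : ∃ i, (x i).1 ≠ 0) : 0 < tot x := by
  obtain ⟨i, hi⟩ := h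
  exact lt_of_lt_of_le (Nat.pos_of_ne_zero hi)
    (Finset.single_le_sum (f := fun i => (x i).1) (fun _ _ => Nat.zero_le _) (Finset.mem_univ i))

lemma ecs_ne (hk : 3 ≤ k) (x : ZMod k → ℕ × Fin s) (h : ∃ i, (x i).1 ≠ 0) (v : ZMod k) :
    ∃ i, (ecs x v i).1 ≠ 0 := by
  by_cases hv : (x v).1 = 0
  · unfold ecs; rw [if_pos hv]; exact h
  · exact ⟨v, by rw [ecs_self hk]; exact hv⟩

/-- the extended chain -/
noncomputable def EC [NeZero k] (hk : 3 ≤ k) : Ch (ZMod k) (ES k s) where
  q x v := ((x.1 v).1 : ℝ) / (tot x.1 : ℝ)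
  st x v := ⟨ecs x.1 v, ecs_ne hk x.1 x.2 v⟩
  q_nonneg x v := div_nonneg (Nat.cast_nonneg _) (Nat.cast_nonneg _)
  q_sum x := by
    rw [← Finset.sum_div]
    have h : (tot x.1 : ℝ) ≠ 0 := by
      have := tot_pos x.2
      exact_mod_cast this.ne'
    rw [div_eq_one_iff_eq h]
    unfold tot
    push_cast
    rfl

/-- the chain is monochromatic, ghosts included -/
def Mono [NeZero k] (x : ES k s) : Prop := mF (col x.1) = 0

lemma EC_q_ne [NeZero k] (hk : 3 ≤ k) {x : ES k s} {v : ZMod k} (h : (EC hk).q x v ≠ 0) :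
    (x.1 v).1 ≠ 0 := by
  intro h2
  apply h
  show ((x.1 v).1 : ℝ) / _ = 0
  rw [h2]; simp

/-- a uniform constant -/
lemma unif [NeZero k] (hk : 3 ≤ k) : ∃ c : ℝ, 0 < c ∧ c ≤ 1 ∧ ∀ (t : ZMod k → ℤˣ) (b : ℕ), b ≤ 1 →
    (b = 1 → 4 ≤ k) → Pp t k = (-1) ^ b → ∀ y : St k,
      (SC hk t).nhL (fun y => Qn t b y.1 < dl k b ^ 2 * Complex.normSq (Zc t b 0 y.1)) y ≤
        1 - c := by
  have h : ∀ p : (ZMod k → ℤˣ) × Fin 2, ∃ c : ℝ, 0 < c ∧ c ≤ 1 ∧
      (((p.2 : ℕ) = 1 → 4 ≤ k) → Pp p.1 k = (-1) ^ (p.2 : ℕ) → ∀ y : St k,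
      (SC hk p.1).nhL (fun y => Qn p.1 p.2 y.1 <
        dl k p.2 ^ 2 * Complex.normSq (Zc p.1 p.2 0 y.1)) y ≤ 1 - c) := by
    rintro ⟨t, b⟩
    by_cases h1 : (((b : ℕ) = 1 → 4 ≤ k) ∧ Pp t k = (-1) ^ (b : ℕ))
    · have hb : (b : ℕ) ≤ 1 := by omega
      obtain ⟨A, hQ, hZ⟩ := exists_Ana hk t b hb h1.1 h1.2
      refine ⟨A.c3 / 2, by linarith [A.c3_pos], by linarith [A.c3_le], fun _ _ y => ?_⟩
      have h2 := A.main (dl k b) (dl_pos hk b) y
      have h3 : A.D (dl k b) = (fun y : St k => Qn t b y.1 <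
          dl k b ^ 2 * Complex.normSq (Zc t b 0 y.1)) := by
        funext y
        unfold Ana.D Ana.X
        rw [hQ, hZ]
      rw [h3] at h2
      exact h2
    · exact ⟨1, one_pos, le_refl _, fun h2 h3 => absurd ⟨h2, h3⟩ h1⟩
  choose c hc using h
  obtain ⟨p0, hp0⟩ := Finite.exists_min c
  refine ⟨c p0, (hc p0).1, (hc p0).2.1, fun t b hb hkb hP y => ?_⟩
  obtain ⟨b', hb'⟩ : ∃ b' : Fin 2, (b' : ℕ) = b := ⟨⟨b, by omega⟩, rfl⟩
  subst hb'
  have := (hc (t, b')).2.2 hkb hP y
  have h2 := hp0 (t, b')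
  linarith

lemma Tt_rel [NeZero k] {t : ZMod k → ℤˣ} {x : ZMod k → ℕ × Fin s} {y : ZMod k → ℤ}
    (h : Rel t x y) (v : ZMod k) : |(y v : ℝ)| = ((x v).1 : ℝ) := by
  obtain ⟨σ, hy, -⟩ := h
  rw [hy]
  rcases Int.units_eq_one_or (σ v) with h1 | h1 <;> simp [h1]

lemma rel_q [NeZero k] (hk : 3 ≤ k) {t : ZMod k → ℤˣ} {x : ES k s} {y : St k}
    (h : Rel t x.1 y.1) (v : ZMod k) : (EC hk).q x v = (SC hk t).q y v := by
  show ((x.1 v).1 : ℝ) / (tot x.1 : ℝ) = |(y.1 v : ℝ)| / Tt y.1
  rw [Tt_rel h v]
  congr 1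
  unfold tot Tt
  push_cast
  exact Finset.sum_congr rfl (fun i _ => (Tt_rel h i).symm)

/-- comparison with the signed chain -/
lemma compare [NeZero k] (hk : 3 ≤ k) (μ : ℕ)
    (IH : ∀ x : ES k s, mF (col x.1) ≤ μ → (EC hk).nhL Mono x = 0)
    (t : ZMod k → ℤˣ) (b : ℕ) (hb : b ≤ 1) (hP : Pp t k = (-1) ^ b) (n : ℕ) :
    ∀ (x : ES k s) (y : St k), Rel t x.1 y.1 → mF (col x.1) = μ + 1 →
      (EC hk).nhL Mono x ≤ (SC hk t).nh (fun y => Qn t b y.1 <
        dl k b ^ 2 * Complex.normSq (Zc t b 0 y.1)) n y := by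
  set D : St k → Prop := fun y => Qn t b y.1 < dl k b ^ 2 * Complex.normSq (Zc t b 0 y.1)
  induction n with
  | zero =>
    intro x y hR hm
    rw [(SC hk t).nh_zero, if_neg]
    · exact ((EC hk).nhL_le _ 0 x).trans ((EC hk).nh_le_one _ _ _)
    · intro hD
      have := near_rel hk hR b hb hP hD
      omega
  | succ n ih =>
    intro x y hR hm
    have hD : ¬ D y := by
      intro hD
      have := near_rel hk hR b hb hP hD
      omega
    have hM : ¬ Mono x := by unfold Mono; omega
    rw [(SC hk t).nh_succ, if_neg hD, (EC hk).nhL_of_not _ hM]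
    unfold Ch.avg
    refine Finset.sum_le_sum (fun v _ => ?_)
    rw [← rel_q hk hR v]
    by_cases hv : (EC hk).q x v = 0
    · rw [hv, zero_mul, zero_mul]
    · refine mul_le_mul_of_nonneg_left ?_ ((EC hk).q_nonneg x v)
      have hv1 := EC_q_ne hk hv
      rcases step_rel hk hR v hv1 with h1 | ⟨h1, h2⟩
      · have h3 : (EC hk).nhL Mono ((EC hk).st x v) = 0 := by
          refine IH _ ?_
          show mF (col (ecs x.1 v)) ≤ μ
          omega
        rw [h3]
        exact (SC hk t).nh_nonneg _ _ _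
      · exact ih ((EC hk).st x v) ((SC hk t).st y v) h2 (h1.trans hm)

/-- if all edges have different colours, an arrival takes away a ball or an edge -/
lemma op_all [NeZero k] (hk : 3 ≤ k) (x : ZMod k → ℕ × Fin s) (u : ZMod k) (c : Fin s)
    (h : Nb (col x) u c) (hall : ∀ i, col x i ≠ col x (i + 1)) :
    mF (col (Function.update x u (op c (x u)))) < mF (col x) ∨
      (col (Function.update x u (op c (x u))) = col x ∧ (op c (x u)).1 + 1 = (x u).1) := by
  have hcol : col (Function.update x u (op c (x u))) =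
      Function.update (col x) u (op c (x u)).2 := by
    funext i
    unfold col
    by_cases hi : i = u
    · subst hi; rw [Function.update_self, Function.update_self]
    · rw [Function.update_of_ne hi, Function.update_of_ne hi]
  have h1 := hall u
  have h2 := hall (u - 1)
  rw [sub_add_cancel] at h2
  have hne : (x u).2 ≠ c := by
    rcases h with h | h
    · rw [h]; exact fun e => h2 e.symm
    · rw [h]; exact h1
  rw [hcol]
  by_cases h5 : 2 ≤ (x u).1
  · right
    have h3 : op c (x u) = ((x u).1 - 1, (x u).2) := by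
      unfold op; rw [if_neg hne, if_pos h5]
    rw [h3]
    exact ⟨Function.update_eq_self u (col x), by show (x u).1 - 1 + 1 = _; omega⟩
  · left
    have h3 : op c (x u) = (1 - (x u).1, c) := by unfold op; rw [if_neg hne, if_neg h5]
    rw [h3]
    show mF (Function.update (col x) u c) < mF (col x)
    have h4 := mF_update hk (col x) u c
    rw [if_neg h2, if_neg h1] at h4
    rcases h with h | h
    · subst h
      rw [if_pos rfl] at h4
      split_ifs at h4 <;> omega
    · subst h
      rw [if_pos rfl] at h4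
      split_ifs at h4 <;> omega

lemma step_all [NeZero k] (hk : 3 ≤ k) (x : ZMod k → ℕ × Fin s) (v : ZMod k) (hv : (x v).1 ≠ 0)
    (hall : ∀ i, col x i ≠ col x (i + 1)) :
    mF (col (ecs x v)) < mF (col x) ∨ (col (ecs x v) = col x ∧ tot (ecs x v) < tot x) := by
  have h0 := succ_ne hk v
  have h1 := succ_ne_pred hk v
  have hnb1 : Nb (col x) (v + 1) (x v).2 := by
    left; unfold col; rw [add_sub_cancel_right]
  rw [ecs_eq hk x v hv]
  set c := (x v).2 with hc
  set x1 := Function.update x (v + 1) (op c (x (v + 1))) with hx1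
  have hx1v : x1 v = x v := by rw [hx1, Function.update_of_ne h0.symm]
  have hnb : Nb (col x1) (v - 1) c := by
    right
    unfold col
    rw [sub_add_cancel, hx1v]
  have hmono := op_mono hk x1 (v - 1) c hnb
  rcases op_all hk x (v + 1) c hnb1 hall with h2 | ⟨h2, h3⟩
  · left
    exact lt_of_le_of_lt hmono h2
  · rw [← hx1] at h2
    have hall1 : ∀ i, col x1 i ≠ col x1 (i + 1) := by rw [h2]; exact hall
    rcases op_all hk x1 (v - 1) c hnb hall1 with h4 | ⟨h4, h5⟩
    · left
      rw [h2] at h4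
      exact h4
    · right
      refine ⟨h4.trans h2, ?_⟩
      have hx1u : x1 (v - 1) = x (v - 1) := by rw [hx1, Function.update_of_ne h1.symm]
      unfold tot
      refine Finset.sum_lt_sum (fun i _ => ?_) ⟨v - 1, Finset.mem_univ _, ?_⟩
      · by_cases hi : i = v - 1
        · subst hi
          rw [Function.update_self, ← hx1u]
          omega
        · rw [Function.update_of_ne hi]
          by_cases hi2 : i = v + 1
          · subst hi2
            rw [hx1, Function.update_self]
            omega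
          · rw [hx1, Function.update_of_ne hi2]
      · rw [Function.update_self, ← hx1u]
        omega

lemma descent [NeZero k] (hk : 3 ≤ k) (μ : ℕ)
    (IH : ∀ x : ES k s, mF (col x.1) ≤ μ → (EC hk).nhL Mono x = 0) (N : ℕ) :
    ∀ x : ES k s, tot x.1 ≤ N → mF (col x.1) = μ + 1 → (∀ i, col x.1 i ≠ col x.1 (i + 1)) →
      (EC hk).nhL Mono x = 0 := by
  induction N with
  | zero =>
    intro x h
    have := tot_pos x.2
    omega
  | succ N ih =>
    intro x hN hm hall
    have hM : ¬ Mono x := by unfold Mono; omega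
    rw [(EC hk).nhL_of_not _ hM]
    unfold Ch.avg
    refine Finset.sum_eq_zero (fun v _ => ?_)
    by_cases hv : (EC hk).q x v = 0
    · rw [hv, zero_mul]
    · have hv1 := EC_q_ne hk hv
      rcases step_all hk x.1 v hv1 hall with h1 | ⟨h1, h2⟩
      · rw [IH ((EC hk).st x v) (by show mF (col (ecs x.1 v)) ≤ μ; omega), mul_zero]
      · have h3 : col ((EC hk).st x v).1 = col x.1 := h1
        rw [ih ((EC hk).st x v) (by show tot (ecs x.1 v) ≤ N; omega) (by rw [h3]; exact hm)
          (by rw [h3]; exact hall), mul_zero]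

/-- the signs of the edges of a colouring -/
noncomputable def tF (F : ZMod k → Fin s) : ZMod k → ℤˣ := fun i => if F i = F (i + 1) then 1 else -1

lemma three_case (F : ZMod 3 → Fin s) (i : ZMod 3) (h : F i = F (i + 1)) : Pp (tF F) 3 = 1 := by
  have e : Pp (tF F) 3 = tF F 0 * tF F 1 * tF F 2 := by
    unfold Pp
    rw [Finset.prod_range_succ, Finset.prod_range_succ, Finset.prod_range_succ,
      Finset.prod_range_zero, one_mul]
    rfl
  have a0 : (0 : ZMod 3) + 1 = 1 := by decide
  have a1 : (1 : ZMod 3) + 1 = 2 := by decide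
  have a2 : (2 : ZMod 3) + 1 = 0 := by decide
  rw [e]
  unfold tF
  rw [a0, a1, a2]
  have hi : ∀ i : ZMod 3, i = 0 ∨ i = 1 ∨ i = 2 := by decide
  rcases hi i with rfl | rfl | rfl
  · rw [a0] at h
    by_cases h2 : F 1 = F 2
    · have h3 : F 2 = F 0 := by rw [← h2, ← h]
      rw [if_pos h, if_pos h2, if_pos h3]; rfl
    · have h3 : ¬ F 2 = F 0 := by rw [h]; exact fun e => h2 e.symm
      rw [if_pos h, if_neg h2, if_neg h3]; rfl
  · rw [a1] at h
    by_cases h2 : F 0 = F 1
    · have h3 : F 2 = F 0 := by rw [← h, ← h2]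
      rw [if_pos h, if_pos h2, if_pos h3]; rfl
    · have h3 : ¬ F 2 = F 0 := by rw [← h]; exact fun e => h2 e.symm
      rw [if_pos h, if_neg h2, if_neg h3]; rfl
  · rw [a2] at h
    by_cases h2 : F 0 = F 1
    · have h3 : F 1 = F 2 := by rw [← h2, ← h]
      rw [if_pos h, if_pos h2, if_pos h3]; rfl
    · have h3 : ¬ F 1 = F 2 := by rw [h]; exact fun e => h2 e.symm
      rw [if_pos h, if_neg h2, if_neg h3]; rfl

/-- **the extended chain becomes monochromatic almost surely** -/
theorem absorb [NeZero k] (hk : 3 ≤ k) (x : ES k s) : (EC hk).nhL Mono x = 0 := by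
  obtain ⟨c, hc0, hc1, hc⟩ := unif hk
  have key : ∀ μ : ℕ, ∀ x : ES k s, mF (col x.1) ≤ μ → (EC hk).nhL Mono x = 0 := by
    intro μ
    induction μ with
    | zero =>
      intro x hx
      exact (EC hk).nhL_of_mem _ (Nat.le_zero.mp hx)
    | succ μ IH =>
      refine (EC hk).nhL_eq_zero Mono (fun x => mF (col x.1) ≤ μ + 1) (fun x v h => ?_) c hc0
        (fun x hx => ?_)
      · exact (ecs_mono hk x.1 v).trans h
      · rcases Nat.lt_or_ge (mF (col x.1)) (μ + 1) with h1 | h1
        · rw [IH x (by omega)]; linarith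
        · have hm : mF (col x.1) = μ + 1 := le_antisymm hx h1
          by_cases hall : ∀ i, col x.1 i ≠ col x.1 (i + 1)
          · rw [descent hk μ IH (tot x.1) x le_rfl hm hall]; linarith
          · push Not at hall
            obtain ⟨i, hi⟩ := hall
            set t := tF (col x.1) with ht
            obtain ⟨b, hb, hP⟩ : ∃ b : ℕ, b ≤ 1 ∧ Pp t k = (-1) ^ b := by
              rcases Int.units_eq_one_or (Pp t k) with h | h
              · exact ⟨0, by norm_num, by rw [h, pow_zero]⟩
              · exact ⟨1, by norm_num, by rw [h, pow_one]⟩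
            have hkb : b = 1 → 4 ≤ k := by
              intro hb1
              by_contra h4
              have h3 : k = 3 := by omega
              subst h3
              have := three_case (col x.1) i hi
              rw [← ht, hP, hb1] at this
              exact absurd this (by decide)
            set y : ZMod k → ℤ := fun i => ((x.1 i).1 : ℤ) with hy
            have hy0 : y ≠ 0 := by
              obtain ⟨j, hj⟩ := x.2
              intro h
              have := congrFun h j
              apply hj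
              have h2 : ((x.1 j).1 : ℤ) = 0 := this
              exact_mod_cast h2
            have hR : Rel t x.1 y := by
              refine ⟨fun _ => 1, fun i => by simp [hy], fun i => ?_⟩
              rw [one_mul, mul_one, ht]
              unfold tF
              split_ifs with h
              · simp [h]
              · simp only [h, iff_false]
                decide
            have h5 := hc t b hb hkb hP ⟨y, hy0⟩
            refine le_trans ?_ h5
            exact ge_of_tendsto' ((SC hk t).nh_tendsto _ ⟨y, hy0⟩)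
              (fun n => compare hk μ IH t b hb hP n x ⟨y, hy0⟩ hR hm)
  exact key _ x le_rfl

end Pool.H30.Urn
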