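import Mathlib

/-!
# Averaging operators of a chain with finitely many moves, and avoidance probabilities
-/

namespace Pool.H30.Urn

open Finset Filter Topology
open scoped Classical

/-- a chain: from the state `x` the move `v` is made with probability `q x v` and leads to
`st x v` -/
structure Ch (V α : Type*) [Fintype V] where
  q : α → V → ℝ
  st : α → V → α
  q_nonneg : ∀ x v, 0 ≤ q x v
  q_sum : ∀ x, ∑ v, q x v = 1

variable {V α : Type*} [Fintype V]

/-- the average of `f` after one move -/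
def Ch.avg (C : Ch V α) (f : α → ℝ) (x : α) : ℝ := ∑ v, C.q x v * f (C.st x v)

lemma Ch.avg_mono (C : Ch V α) {f g : α → ℝ} {x : α}
    (h : ∀ v, C.q x v ≠ 0 → f (C.st x v) ≤ g (C.st x v)) : C.avg f x ≤ C.avg g x := by
  refine Finset.sum_le_sum (fun v _ => ?_)
  by_cases hv : C.q x v = 0
  · simp [hv]
  · exact mul_le_mul_of_nonneg_left (h v hv) (C.q_nonneg x v)

lemma Ch.avg_const (C : Ch V α) (c : ℝ) (x : α) : C.avg (fun _ => c) x = c := by
  unfold Ch.avg
  rw [← Finset.sum_mul, C.q_sum, one_mul]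

lemma Ch.avg_nonneg (C : Ch V α) {f : α → ℝ} {x : α} (h : ∀ v, 0 ≤ f (C.st x v)) :
    0 ≤ C.avg f x :=
  Finset.sum_nonneg (fun v _ => mul_nonneg (C.q_nonneg x v) (h v))

lemma Ch.avg_le (C : Ch V α) {f : α → ℝ} {x : α} {c : ℝ}
    (h : ∀ v, C.q x v ≠ 0 → f (C.st x v) ≤ c) : C.avg f x ≤ c := by
  calc C.avg f x ≤ C.avg (fun _ => c) x := C.avg_mono h
    _ = c := C.avg_const c x

lemma Ch.avg_mul (C : Ch V α) (f : α → ℝ) (c : ℝ) (x : α) :
    C.avg (fun y => c * f y) x = c * C.avg f x := by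
  unfold Ch.avg
  rw [Finset.mul_sum]
  exact Finset.sum_congr rfl (fun v _ => by ring)

lemma Ch.avg_add (C : Ch V α) (f g : α → ℝ) (x : α) :
    C.avg (fun y => f y + g y) x = C.avg f x + C.avg g x := by
  unfold Ch.avg
  rw [← Finset.sum_add_distrib]
  exact Finset.sum_congr rfl (fun v _ => by ring)

lemma Ch.avg_sub (C : Ch V α) (f g : α → ℝ) (x : α) :
    C.avg (fun y => f y - g y) x = C.avg f x - C.avg g x := by
  unfold Ch.avg
  rw [← Finset.sum_sub_distrib]
  exact Finset.sum_congr rfl (fun v _ => by ring)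

/-- the probability that `D` is not hit during the first `n` moves -/
noncomputable def Ch.nh (C : Ch V α) (D : α → Prop) : ℕ → α → ℝ
  | 0, x => if D x then 0 else 1
  | n + 1, x => if D x then 0 else C.avg (Ch.nh C D n) x

lemma Ch.nh_zero (C : Ch V α) (D : α → Prop) (x : α) :
    C.nh D 0 x = if D x then 0 else 1 := rfl

lemma Ch.nh_succ (C : Ch V α) (D : α → Prop) (n : ℕ) (x : α) :
    C.nh D (n + 1) x = if D x then 0 else C.avg (C.nh D n) x := rfl

lemma Ch.nh_nonneg (C : Ch V α) (D : α → Prop) (n : ℕ) (x : α) : 0 ≤ C.nh D n x := by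
  induction n generalizing x with
  | zero => rw [C.nh_zero]; split_ifs <;> norm_num
  | succ n ih =>
    rw [C.nh_succ]
    split_ifs
    · exact le_refl 0
    · exact C.avg_nonneg (fun v => ih _)

lemma Ch.nh_le_one (C : Ch V α) (D : α → Prop) (n : ℕ) (x : α) : C.nh D n x ≤ 1 := by
  induction n generalizing x with
  | zero => rw [C.nh_zero]; split_ifs <;> norm_num
  | succ n ih =>
    rw [C.nh_succ]
    split_ifs
    · norm_num
    · exact C.avg_le (fun v _ => ih _)

lemma Ch.nh_succ_le (C : Ch V α) (D : α → Prop) (n : ℕ) (x : α) :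
    C.nh D (n + 1) x ≤ C.nh D n x := by
  induction n generalizing x with
  | zero =>
    rw [C.nh_succ, C.nh_zero]
    split_ifs
    · exact le_refl 0
    · exact C.avg_le (fun v _ => C.nh_le_one D 0 _)
  | succ n ih =>
    rw [C.nh_succ, C.nh_succ]
    split_ifs
    · exact le_refl 0
    · exact C.avg_mono (fun v _ => ih _)

/-- the probability that `D` is never hit -/
noncomputable def Ch.nhL (C : Ch V α) (D : α → Prop) (x : α) : ℝ := ⨅ n, C.nh D n x

lemma Ch.bdd (C : Ch V α) (D : α → Prop) (x : α) : BddBelow (Set.range fun n => C.nh D n x) :=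
  ⟨0, by rintro _ ⟨n, rfl⟩; exact C.nh_nonneg D n x⟩

lemma Ch.nh_tendsto (C : Ch V α) (D : α → Prop) (x : α) :
    Tendsto (fun n => C.nh D n x) atTop (𝓝 (C.nhL D x)) :=
  tendsto_atTop_ciInf (antitone_nat_of_succ_le (fun n => C.nh_succ_le D n x)) (C.bdd D x)

lemma Ch.nhL_nonneg (C : Ch V α) (D : α → Prop) (x : α) : 0 ≤ C.nhL D x :=
  le_ciInf (fun n => C.nh_nonneg D n x)

lemma Ch.nhL_le (C : Ch V α) (D : α → Prop) (n : ℕ) (x : α) : C.nhL D x ≤ C.nh D n x :=
  ciInf_le (C.bdd D x) n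

lemma Ch.nhL_eq (C : Ch V α) (D : α → Prop) (x : α) :
    C.nhL D x = if D x then 0 else C.avg (C.nhL D) x := by
  have h1 : Tendsto (fun n => C.nh D (n + 1) x) atTop (𝓝 (C.nhL D x)) :=
    (C.nh_tendsto D x).comp (tendsto_add_atTop_nat 1)
  refine tendsto_nhds_unique h1 ?_
  simp_rw [C.nh_succ]
  split_ifs
  · exact tendsto_const_nhds
  · unfold Ch.avg
    exact tendsto_finsetSum _ (fun v _ => (C.nh_tendsto D _).const_mul _)

lemma Ch.nhL_of_mem (C : Ch V α) (D : α → Prop) {x : α} (h : D x) : C.nhL D x = 0 := by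
  rw [C.nhL_eq, if_pos h]

lemma Ch.nhL_of_not (C : Ch V α) (D : α → Prop) {x : α} (h : ¬ D x) :
    C.nhL D x = C.avg (C.nhL D) x := by
  rw [C.nhL_eq, if_neg h]

/-- a uniform bound below `1` for the probability never to hit `D` forces it to be `0` -/
lemma Ch.nhL_eq_zero (C : Ch V α) (D S : α → Prop) (hS : ∀ x v, S x → S (C.st x v)) (c : ℝ)
    (hc : 0 < c) (h : ∀ x, S x → C.nhL D x ≤ 1 - c) (x : α) (hx : S x) : C.nhL D x = 0 := by
  have key : ∀ n x, S x → C.nhL D x ≤ (1 - c) * C.nh D n x := by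
    intro n
    induction n with
    | zero =>
      intro x hx
      rw [C.nh_zero]
      split_ifs with hD
      · rw [C.nhL_of_mem D hD]; simp
      · rw [mul_one]; exact h x hx
    | succ n ih =>
      intro x hx
      rw [C.nh_succ]
      split_ifs with hD
      · rw [C.nhL_of_mem D hD]; simp
      · rw [C.nhL_of_not D hD, ← C.avg_mul]
        exact C.avg_mono (fun v _ => ih _ (hS x v hx))
  have h1 : C.nhL D x ≤ (1 - c) * C.nhL D x :=
    ge_of_tendsto' ((C.nh_tendsto D x).const_mul (1 - c)) (fun n => key n x hx)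
  have h2 := C.nhL_nonneg D x
  nlinarith

end Pool.H30.Urn
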