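import Pool.Agent.helper30.Urn.Sign

/-!
# The chain with ghost colours on a cycle

A state gives to each vertex a number and a colour; the colour of an empty urn is a ghost.  The
number of edges with different colours never increases, and while it stays constant the chain is
the signed linear chain.
-/

namespace Pool.H30.Urn

open Finset Filter Topology
open scoped Classical ComplexConjugate

variable {k s : ℕ}

/-- a ball of colour `c` arrives -/
def op (c : Fin s) (p : ℕ × Fin s) : ℕ × Fin s :=
  if p.2 = c then (p.1 + 1, c) else if 2 ≤ p.1 then (p.1 - 1, p.2) else (1 - p.1, c)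

/-- one move -/
noncomputable def ecs (x : ZMod k → ℕ × Fin s) (v : ZMod k) : ZMod k → ℕ × Fin s :=
  if (x v).1 = 0 then x else fun u => if u = v + 1 ∨ u = v - 1 then op (x v).2 (x u) else x u

def col (x : ZMod k → ℕ × Fin s) : ZMod k → Fin s := fun i => (x i).2

/-- number of edges with different colours -/
noncomputable def mF [NeZero k] (F : ZMod k → Fin s) : ℕ := ∑ i, if F i = F (i + 1) then 0 else 1

lemma pred_ne (hk : 3 ≤ k) (u : ZMod k) : u - 1 ≠ u := by
  intro h
  have : (1 : ZMod k) = 0 := by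
    have h2 : u - (u - 1) = 1 := by ring
    rw [h, sub_self] at h2
    exact h2.symm
  exact one_ne_zero_zmod hk this

lemma succ_ne (hk : 3 ≤ k) (u : ZMod k) : u + 1 ≠ u := by
  intro h
  have : (1 : ZMod k) = 0 := by
    have h2 : u + 1 - u = 1 := by ring
    rw [h, sub_self] at h2
    exact h2.symm
  exact one_ne_zero_zmod hk this

lemma succ_ne_pred (hk : 3 ≤ k) (u : ZMod k) : u + 1 ≠ u - 1 := by
  intro h
  have : (1 : ZMod k) + 1 = 0 := by
    have h2 : u + 1 - (u - 1) = 1 + 1 := by ring
    rw [h, sub_self] at h2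
    exact h2.symm
  exact two_ne_zero_zmod hk this

lemma mF_split [NeZero k] (hk : 3 ≤ k) (F : ZMod k → Fin s) (u : ZMod k) :
    mF F = (if F (u - 1) = F u then 0 else 1) + ((if F u = F (u + 1) then 0 else 1) +
      ∑ i ∈ (univ.erase (u - 1)).erase u, if F i = F (i + 1) then 0 else 1) := by
  unfold mF
  rw [← Finset.add_sum_erase univ _ (Finset.mem_univ (u - 1))]
  congr 1
  · rw [sub_add_cancel]
  · rw [← Finset.add_sum_erase (univ.erase (u - 1)) _
      (Finset.mem_erase.mpr ⟨(pred_ne hk u).symm, Finset.mem_univ u⟩)]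

lemma mF_update [NeZero k] (hk : 3 ≤ k) (F : ZMod k → Fin s) (u : ZMod k) (c : Fin s) :
    mF (Function.update F u c) + ((if F (u - 1) = F u then 0 else 1) +
      (if F u = F (u + 1) then 0 else 1)) =
    mF F + ((if F (u - 1) = c then 0 else 1) + (if c = F (u + 1) then 0 else 1)) := by
  rw [mF_split hk F u, mF_split hk (Function.update F u c) u]
  rw [Function.update_self, Function.update_of_ne (pred_ne hk u),
    Function.update_of_ne (succ_ne hk u)]
  have : ∑ i ∈ (univ.erase (u - 1)).erase u,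
      (if Function.update F u c i = Function.update F u c (i + 1) then 0 else 1) =
      ∑ i ∈ (univ.erase (u - 1)).erase u, (if F i = F (i + 1) then 0 else 1) := by
    refine Finset.sum_congr rfl (fun i hi => ?_)
    rw [Finset.mem_erase, Finset.mem_erase] at hi
    rw [Function.update_of_ne hi.1, Function.update_of_ne]
    intro h
    exact hi.2.1 (by rw [← h]; ring)
  rw [this]
  ring

/-- the colour of a neighbour -/
def Nb (F : ZMod k → Fin s) (u : ZMod k) (c : Fin s) : Prop := c = F (u - 1) ∨ c = F (u + 1)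

lemma mF_update_le [NeZero k] (hk : 3 ≤ k) (F : ZMod k → Fin s) (u : ZMod k) (c : Fin s)
    (h : Nb F u c) : mF (Function.update F u c) ≤ mF F := by
  have h1 := mF_update hk F u c
  rcases h with h | h
  · subst h
    by_cases h2 : F (u - 1) = F u
    · rw [h2] at h1 ⊢
      rw [Function.update_eq_self]
    · rw [if_neg h2, if_pos rfl] at h1
      split_ifs at h1 <;> omega
  · subst h
    by_cases h2 : F u = F (u + 1)
    · rw [← h2, Function.update_eq_self]
    · rw [if_neg h2, if_pos rfl] at h1
      split_ifs at h1 <;> omega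

/-- if the number of edges with different colours is unchanged by a flip, then both edges
toggle -/
lemma toggle [NeZero k] (hk : 3 ≤ k) (F : ZMod k → Fin s) (u : ZMod k) (c : Fin s)
    (h : Nb F u c) (hc : F u ≠ c) (hm : mF (Function.update F u c) = mF F) :
    (¬ F (u - 1) = F u ↔ F (u - 1) = c) ∧ (¬ F u = F (u + 1) ↔ c = F (u + 1)) := by
  have h1 := mF_update hk F u c
  rw [hm] at h1
  rcases h with h | h
  · subst h
    have h2 : ¬ F (u - 1) = F u := fun e => hc e.symm
    rw [if_neg h2, if_pos rfl] at h1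
    refine ⟨⟨fun _ => rfl, fun _ => h2⟩, ?_⟩
    by_cases h3 : F u = F (u + 1)
    · rw [← h3]
      exact ⟨fun e => absurd rfl e, fun e => absurd e h2⟩
    · rw [if_neg h3] at h1
      split_ifs at h1 with h4 <;> omega
  · subst h
    rw [if_neg hc, if_pos rfl] at h1
    refine ⟨?_, ⟨fun _ => rfl, fun _ => hc⟩⟩
    by_cases h3 : F (u - 1) = F u
    · rw [h3]
      exact ⟨fun e => absurd rfl e, fun e => absurd e hc⟩
    · rw [if_neg h3] at h1
      split_ifs at h1 with h4 <;> omega

/-- the sign relation for the edges -/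
def ER (t σ : ZMod k → ℤˣ) (F : ZMod k → Fin s) : Prop :=
  ∀ i, σ i * t i * σ (i + 1) = 1 ↔ F i = F (i + 1)

lemma units_ne_one {a : ℤˣ} : a ≠ 1 ↔ a = -1 := by
  rcases Int.units_eq_one_or a with h | h <;> simp [h]

lemma units_neg_eq_one {a : ℤˣ} : -a = 1 ↔ a ≠ 1 := by
  rcases Int.units_eq_one_or a with h | h <;> simp [h]

lemma units_eq_of_mul {a b : ℤˣ} (h : a * b = 1) : a = b := by
  rcases Int.units_eq_one_or a with h1 | h1 <;> rcases Int.units_eq_one_or b with h2 | h2 <;>
    simp [h1, h2] at h ⊢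

lemma units_eq_neg_of_mul {a b : ℤˣ} (h : a * b ≠ 1) : a = -b := by
  rcases Int.units_eq_one_or a with h1 | h1 <;> rcases Int.units_eq_one_or b with h2 | h2 <;>
    simp [h1, h2] at h ⊢

lemma ER_toggle (hk : 3 ≤ k) {t σ : ZMod k → ℤˣ} {F : ZMod k → Fin s} (h : ER t σ F) (u : ZMod k)
    (c : Fin s) (h1 : ¬ F (u - 1) = F u ↔ F (u - 1) = c) (h2 : ¬ F u = F (u + 1) ↔ c = F (u + 1)) :
    ER t (Function.update σ u (-σ u)) (Function.update F u c) := by
  intro i
  by_cases hi : i = u
  · subst hi
    rw [Function.update_self, Function.update_of_ne (succ_ne hk i), Function.update_self,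
      Function.update_of_ne (succ_ne hk i), ← h2, ← h i]
    rw [show -σ i * t i * σ (i + 1) = -(σ i * t i * σ (i + 1)) by
      rw [neg_mul, neg_mul], units_neg_eq_one]
  · rw [Function.update_of_ne hi, Function.update_of_ne hi]
    by_cases hi2 : i + 1 = u
    · have hi3 : i = u - 1 := by rw [← hi2]; ring
      rw [hi2, Function.update_self, Function.update_self, hi3, ← h1]
      have h3 := h (u - 1)
      rw [sub_add_cancel] at h3
      rw [← h3, mul_neg, units_neg_eq_one]
    · rw [Function.update_of_ne hi2, Function.update_of_ne hi2]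
      exact h i

/-- the effect of one arrival -/
lemma op_step [NeZero k] (hk : 3 ≤ k) {t σ : ZMod k → ℤˣ} {x : ZMod k → ℕ × Fin s}
    (h : ER t σ (col x)) (u : ZMod k) (c : Fin s) (a : ℤˣ)
    (hca : (c = (x (u - 1)).2 ∧ a = σ (u - 1) * t (u - 1)) ∨
      (c = (x (u + 1)).2 ∧ a = σ (u + 1) * t u)) :
    mF (col (Function.update x u (op c (x u)))) < mF (col x) ∨
    (mF (col (Function.update x u (op c (x u)))) = mF (col x) ∧
      ∃ σ' : ZMod k → ℤˣ, (∀ i, i ≠ u → σ' i = σ i) ∧
        ((σ' u : ℤ) * ((op c (x u)).1 : ℤ) = (σ u : ℤ) * ((x u).1 : ℤ) + (a : ℤ)) ∧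
        ER t σ' (col (Function.update x u (op c (x u))))) := by
  have hcol : col (Function.update x u (op c (x u))) =
      Function.update (col x) u (op c (x u)).2 := by
    funext i
    unfold col
    by_cases hi : i = u
    · subst hi; rw [Function.update_self, Function.update_self]
    · rw [Function.update_of_ne hi, Function.update_of_ne hi]
  have hnb : Nb (col x) u c := by
    rcases hca with h1 | h1
    · exact Or.inl h1.1
    · exact Or.inr h1.1
  -- relation between `a` and `σ u`
  have haσ : (a * σ u = 1 ↔ (x u).2 = c) := by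
    rcases hca with ⟨h1, h2⟩ | ⟨h1, h2⟩
    · have h3 := h (u - 1)
      rw [sub_add_cancel, ← h2] at h3
      rw [h3, h1]
      unfold col
      exact eq_comm
    · have h3 := h u
      rw [h2, h1]
      have : σ (u + 1) * t u * σ u = σ u * t u * σ (u + 1) := by
        rw [mul_comm, mul_comm (σ (u + 1)), ← mul_assoc]
      rw [this, h3]
      rfl
  rw [hcol]
  by_cases h1 : (x u).2 = c
  · right
    have h2 : op c (x u) = ((x u).1 + 1, c) := by unfold op; rw [if_pos h1]
    have h3 : Function.update (col x) u (op c (x u)).2 = col x := by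
      rw [h2]
      show Function.update (col x) u c = col x
      rw [← h1]
      exact Function.update_eq_self u (col x)
    rw [h3]
    refine ⟨rfl, σ, fun _ _ => rfl, ?_, h⟩
    rw [h2, units_eq_of_mul (haσ.mpr h1)]
    push_cast
    ring
  · have h4 : a = -σ u := units_eq_neg_of_mul (fun e => h1 (haσ.mp e))
    by_cases h5 : 2 ≤ (x u).1
    · right
      have h2 : op c (x u) = ((x u).1 - 1, (x u).2) := by
        unfold op; rw [if_neg h1, if_pos h5]
      have h3 : Function.update (col x) u (op c (x u)).2 = col x := by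
        rw [h2]
        exact Function.update_eq_self u (col x)
      rw [h3]
      refine ⟨rfl, σ, fun _ _ => rfl, ?_, h⟩
      rw [h2, h4]
      push_cast [Nat.cast_sub (show 1 ≤ (x u).1 by omega)]
      ring
    · have h2 : op c (x u) = (1 - (x u).1, c) := by unfold op; rw [if_neg h1, if_neg h5]
      rw [h2]
      show mF (Function.update (col x) u c) < mF (col x) ∨
        (mF (Function.update (col x) u c) = mF (col x) ∧ _)
      rcases Nat.lt_or_ge (mF (Function.update (col x) u c)) (mF (col x)) with h6 | h6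
      · exact Or.inl h6
      · right
        have h7 : mF (Function.update (col x) u c) = mF (col x) :=
          le_antisymm (mF_update_le hk (col x) u c hnb) h6
        obtain ⟨h8, h9⟩ := toggle hk (col x) u c hnb h1 h7
        refine ⟨h7, Function.update σ u (-σ u), fun i hi => Function.update_of_ne hi _ _, ?_,
          ER_toggle hk h u c h8 h9⟩
        rw [Function.update_self, h4]
        push_cast [Nat.cast_sub (show (x u).1 ≤ 1 by omega)]
        ring

lemma op_mono [NeZero k] (hk : 3 ≤ k) (x : ZMod k → ℕ × Fin s) (u : ZMod k) (c : Fin s)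
    (h : Nb (col x) u c) : mF (col (Function.update x u (op c (x u)))) ≤ mF (col x) := by
  have hcol : col (Function.update x u (op c (x u))) =
      Function.update (col x) u (op c (x u)).2 := by
    funext i
    unfold col
    by_cases hi : i = u
    · subst hi; rw [Function.update_self, Function.update_self]
    · rw [Function.update_of_ne hi, Function.update_of_ne hi]
  rw [hcol]
  by_cases h1 : (op c (x u)).2 = c
  · rw [h1]; exact mF_update_le hk _ u c h
  · have h2 : (op c (x u)).2 = (x u).2 := by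
      unfold op at h1 ⊢
      split_ifs at h1 ⊢ with h3 h4
      · exact absurd rfl h1
      · rfl
      · exact absurd rfl h1
    rw [h2]
    exact le_of_eq (congrArg mF (Function.update_eq_self u (col x)))

/-- a move consists of two arrivals -/
lemma ecs_eq (hk : 3 ≤ k) (x : ZMod k → ℕ × Fin s) (v : ZMod k) (hv : (x v).1 ≠ 0) :
    ecs x v = Function.update (Function.update x (v + 1) (op (x v).2 (x (v + 1)))) (v - 1)
      (op (x v).2 ((Function.update x (v + 1) (op (x v).2 (x (v + 1)))) (v - 1))) := by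
  have h1 := succ_ne_pred hk v
  funext u
  unfold ecs
  rw [if_neg hv, Function.update_of_ne h1.symm]
  by_cases h2 : u = v - 1
  · subst h2
    rw [Function.update_self, if_pos (Or.inr rfl)]
  · rw [Function.update_of_ne h2]
    by_cases h3 : u = v + 1
    · subst h3
      rw [Function.update_self, if_pos (Or.inl rfl)]
    · rw [Function.update_of_ne h3, if_neg]
      rintro (h | h)
      · exact h3 h
      · exact h2 h

/-- the signed configuration of a state -/
def Rel (t : ZMod k → ℤˣ) (x : ZMod k → ℕ × Fin s) (y : ZMod k → ℤ) : Prop :=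
  ∃ σ : ZMod k → ℤˣ, (∀ i, y i = (σ i : ℤ) * ((x i).1 : ℤ)) ∧ ER t σ (col x)

lemma sign_units_mul (a : ℤˣ) (n : ℕ) (hn : n ≠ 0) : Int.sign ((a : ℤ) * (n : ℤ)) = (a : ℤ) := by
  have hn' : (0 : ℤ) < n := by exact_mod_cast Nat.pos_of_ne_zero hn
  rcases Int.units_eq_one_or a with h | h
  · rw [h]; simpa using Nat.pos_of_ne_zero hn
  · rw [h]; simpa using Nat.pos_of_ne_zero hn

lemma step_rel [NeZero k] (hk : 3 ≤ k) {t : ZMod k → ℤˣ} {x : ZMod k → ℕ × Fin s}
    {y : ZMod k → ℤ} (h : Rel t x y) (v : ZMod k) (hv : (x v).1 ≠ 0) :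
    mF (col (ecs x v)) < mF (col x) ∨
      (mF (col (ecs x v)) = mF (col x) ∧ Rel t (ecs x v) (sst t y v)) := by
  obtain ⟨σ, hy, hER⟩ := h
  have h0 := succ_ne hk v
  have h0' := pred_ne hk v
  have h1 := succ_ne_pred hk v
  rw [ecs_eq hk x v hv]
  set c := (x v).2 with hc
  set x1 := Function.update x (v + 1) (op c (x (v + 1))) with hx1
  have hx1v : x1 v = x v := by rw [hx1, Function.update_of_ne h0.symm]
  have hnb : Nb (col x1) (v - 1) c := by
    right
    unfold col
    rw [sub_add_cancel, hx1v]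
  have hmono := op_mono hk x1 (v - 1) c hnb
  rcases op_step hk hER (v + 1) c (σ v * t v) (Or.inl ⟨by rw [add_sub_cancel_right], by
    rw [add_sub_cancel_right]⟩) with h2 | ⟨h2, σ1, hσ1, hσ1u, hER1⟩
  · left
    exact lt_of_le_of_lt hmono h2
  · rw [← hx1] at h2 hER1
    have hσ1v : σ1 v = σ v := hσ1 v h0.symm
    rcases op_step hk hER1 (v - 1) c (σ1 v * t (v - 1)) (Or.inr ⟨by
      rw [sub_add_cancel, hx1v], by rw [sub_add_cancel]⟩) with h3 | ⟨h3, σ2, hσ2, hσ2u, hER2⟩
    · left
      exact lt_of_lt_of_le h3 (le_of_eq h2)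
    · right
      refine ⟨h3.trans h2, σ2, fun i => ?_, hER2⟩
      have hs : Int.sign (y v) = (σ v : ℤ) := by rw [hy v, sign_units_mul _ _ hv]
      unfold sst
      rw [hs]
      by_cases hi : i = v - 1
      · subst hi
        rw [if_neg h1.symm, if_pos rfl, Function.update_self, hσ2u, hy, hσ1 _ h1.symm, hσ1v]
        have : x1 (v - 1) = x (v - 1) := by rw [hx1, Function.update_of_ne h1.symm]
        rw [this]
        push_cast
        ring
      · rw [if_neg hi, Function.update_of_ne hi, hσ2 i hi]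
        by_cases hi2 : i = v + 1
        · subst hi2
          rw [if_pos rfl, hx1, Function.update_self, hσ1u, hy]
          push_cast
          ring
        · rw [if_neg hi2, hσ1 i hi2, hx1, Function.update_of_ne hi2, hy]
          ring

lemma ecs_mono [NeZero k] (hk : 3 ≤ k) (x : ZMod k → ℕ × Fin s) (v : ZMod k) :
    mF (col (ecs x v)) ≤ mF (col x) := by
  by_cases hv : (x v).1 = 0
  · unfold ecs; rw [if_pos hv]
  · rw [ecs_eq hk x v hv]
    refine (op_mono hk _ (v - 1) _ ?_).trans (op_mono hk _ (v + 1) _ ?_)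
    · right
      unfold col
      rw [sub_add_cancel, Function.update_of_ne (succ_ne hk v).symm]
    · left
      unfold col
      rw [add_sub_cancel_right]

lemma ecs_self (hk : 3 ≤ k) (x : ZMod k → ℕ × Fin s) (v : ZMod k) : ecs x v v = x v := by
  unfold ecs
  split_ifs with h
  · rfl
  · show (if v = v + 1 ∨ v = v - 1 then op (x v).2 (x v) else x v) = x v
    rw [if_neg]
    rintro (h2 | h2)
    · exact succ_ne hk v h2.symm
    · exact pred_ne hk v h2.symm

/-! ### signs near the top -/

lemma unit_eq_one_of_pos {a b c : ℤˣ} {m n : ℕ}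
    (h : 0 < ((a : ℤ) * (m : ℤ)) * (b : ℤ) * ((c : ℤ) * (n : ℤ))) : a * b * c = 1 := by
  by_contra hne
  have h1 : a * b * c = -1 := units_ne_one.mp hne
  have h2 : ((a : ℤ) * (b : ℤ) * (c : ℤ)) = -1 := by
    have := congrArg (fun z : ℤˣ => (z : ℤ)) h1
    simpa using this
  have h3 : ((a : ℤ) * (m : ℤ)) * (b : ℤ) * ((c : ℤ) * (n : ℤ)) =
      ((a : ℤ) * (b : ℤ) * (c : ℤ)) * ((m : ℤ) * (n : ℤ)) := by ring
  rw [h3, h2] at h
  have h4 : (0 : ℤ) ≤ (m : ℤ) * (n : ℤ) := by positivity
  linarith

lemma mF_eq_zero [NeZero k] {F : ZMod k → Fin s} (h : ∀ i, F i = F (i + 1)) : mF F = 0 := by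
  unfold mF
  exact Finset.sum_eq_zero (fun i _ => if_pos (h i))

/-- product of the signs along a path -/
lemma path_prod (t σ : ZMod k → ℤˣ) (r n : ℕ) :
    ∏ j ∈ range n, (σ ((r + j : ℕ) : ZMod k) * t ((r + j : ℕ) : ZMod k) *
      σ (((r + j : ℕ) : ZMod k) + 1)) =
    σ ((r : ℕ) : ZMod k) * (Pp t r * Pp t (r + n)) * σ ((r + n : ℕ) : ZMod k) := by
  induction n with
  | zero =>
    simp only [Finset.range_zero, Finset.prod_empty, add_zero]
    rcases Int.units_eq_one_or (Pp t r) with h2 | h2 <;> simp [h2]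
  | succ n ih =>
    rw [Finset.prod_range_succ, ih, ← add_assoc, Pp_succ]
    have h1 : ((r + n + 1 : ℕ) : ZMod k) = ((r + n : ℕ) : ZMod k) + 1 := by push_cast; ring
    rw [h1]
    have h2 : σ ((r + n : ℕ) : ZMod k) * σ ((r + n : ℕ) : ZMod k) = 1 :=
      Int.units_mul_self _
    calc σ ((r : ℕ) : ZMod k) * (Pp t r * Pp t (r + n)) * σ ((r + n : ℕ) : ZMod k) *
          (σ ((r + n : ℕ) : ZMod k) * t ((r + n : ℕ) : ZMod k) * σ (((r + n : ℕ) : ZMod k) + 1))
        = (σ ((r + n : ℕ) : ZMod k) * σ ((r + n : ℕ) : ZMod k)) *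
          (σ ((r : ℕ) : ZMod k) * (Pp t r * (Pp t (r + n) * t ((r + n : ℕ) : ZMod k))) *
            σ (((r + n : ℕ) : ZMod k) + 1)) := by
          simp only [mul_comm, mul_left_comm, mul_assoc]
      _ = _ := by rw [h2, one_mul]

lemma near_rel [NeZero k] (hk : 3 ≤ k) {t : ZMod k → ℤˣ} {x : ZMod k → ℕ × Fin s}
    {y : ZMod k → ℤ} (h : Rel t x y) (b : ℕ) (hb : b ≤ 1) (hP : Pp t k = (-1) ^ b)
    (hD : Qn t b y < dl k b ^ 2 * Complex.normSq (Zc t b 0 y)) : mF (col x) = 0 := by
  obtain ⟨σ, hy, hER⟩ := h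
  rcases Nat.le_one_iff_eq_zero_or_eq_one.mp hb with h0 | h0
  · subst h0
    refine mF_eq_zero (fun i => ?_)
    have h1 := near0 hk t hP y hD i.val
    rw [ZMod.natCast_zmod_val, hy, hy] at h1
    exact (hER i).mp (unit_eq_one_of_pos h1)
  · subst h0
    exfalso
    obtain ⟨r, hr⟩ := near1 hk t hP y hD
    have hedge : ∀ j : ℕ, 1 ≤ j → j + 1 < k → σ ((r + j : ℕ) : ZMod k) *
        t ((r + j : ℕ) : ZMod k) * σ (((r + j : ℕ) : ZMod k) + 1) = 1 := by
      intro j h1 h2
      have h3 := hr j h1 h2
      rw [hy, hy] at h3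
      exact unit_eq_one_of_pos h3
    -- the colours agree away from `r`
    have hcolor : ∀ j : ℕ, 1 ≤ j → j < k →
        col x ((r + j : ℕ) : ZMod k) = col x ((r + 1 : ℕ) : ZMod k) := by
      intro j
      induction j with
      | zero => intro h1; omega
      | succ j ih =>
        intro h1 h2
        rcases Nat.eq_zero_or_pos j with h3 | h3
        · subst h3; rfl
        · rw [← ih h3 (by omega)]
          have h4 := (hER ((r + j : ℕ) : ZMod k)).mp (hedge j h3 h2)
          have h5 : ((r + (j + 1) : ℕ) : ZMod k) = ((r + j : ℕ) : ZMod k) + 1 := by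
            push_cast; ring
          rw [h5]
          exact h4.symm
    have hprod := path_prod t σ r k
    have hrk : ((r + k : ℕ) : ZMod k) = ((r : ℕ) : ZMod k) := by push_cast; simp
    rw [Pp_add, hP, hrk] at hprod
    have hneg : σ ((r : ℕ) : ZMod k) * (Pp t r * (Pp t r * (-1) ^ 1)) * σ ((r : ℕ) : ZMod k) =
        -1 := by
      rcases Int.units_eq_one_or (σ ((r : ℕ) : ZMod k)) with h | h <;>
        rcases Int.units_eq_one_or (Pp t r) with h2 | h2 <;> simp [h, h2]
    rw [hneg] at hprod
    -- split off the first and the last edge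
    obtain ⟨n, rfl⟩ : ∃ n, k = n + 2 := ⟨k - 2, by omega⟩
    rw [Finset.prod_range_succ, Finset.prod_range_succ'] at hprod
    have hmid : ∏ j ∈ range n, (σ ((r + (j + 1) : ℕ) : ZMod (n + 2)) *
        t ((r + (j + 1) : ℕ) : ZMod (n + 2)) *
          σ (((r + (j + 1) : ℕ) : ZMod (n + 2)) + 1)) = 1 := by
      refine Finset.prod_eq_one (fun j hj => ?_)
      rw [Finset.mem_range] at hj
      exact hedge (j + 1) (by omega) (by omega)
    rw [hmid, one_mul, add_zero] at hprod
    have hE0 := hER ((r : ℕ) : ZMod (n + 2))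
    have hE1 := hER ((r + (n + 1) : ℕ) : ZMod (n + 2))
    have hc1 : ((r + (n + 1) : ℕ) : ZMod (n + 2)) + 1 = ((r : ℕ) : ZMod (n + 2)) := by
      rw [← hrk]; push_cast; ring
    have hc2 : ((r : ℕ) : ZMod (n + 2)) + 1 = ((r + 1 : ℕ) : ZMod (n + 2)) := by
      push_cast; ring
    rw [hc1] at hE1 hprod
    rw [hc2] at hE0 hprod
    have hcc := hcolor (n + 1) (by omega) (by omega)
    rw [hcc] at hE1
    set A := σ ((r : ℕ) : ZMod (n + 2)) * t ((r : ℕ) : ZMod (n + 2)) *
      σ ((r + 1 : ℕ) : ZMod (n + 2))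
    set B := σ ((r + (n + 1) : ℕ) : ZMod (n + 2)) * t ((r + (n + 1) : ℕ) : ZMod (n + 2)) *
      σ ((r : ℕ) : ZMod (n + 2))
    have hAB : A = 1 ↔ B = 1 := by rw [hE0, hE1]; exact eq_comm
    rcases Int.units_eq_one_or A with h | h <;> rcases Int.units_eq_one_or B with h2 | h2 <;>
      simp [h, h2] at hAB hprod

end Pool.H30.Urn
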