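import Pool.Agent.helper30.Urn.Final

set_option autoImplicit false

/-!
# Cycles have no coexistence in the multi-type urn process

For all numbers of colours `s` and all `k ≥ 3` the cycle `C_k` lies in the class `𝒢ₛ`: from every
finite initial configuration with at least one ball, almost surely exactly one colour survives.
-/

namespace Pool.Agent.Results.MP_747d65_pr.Cycles

open Pool.H30.Urn

theorem result : ∀ s k : ℕ, 1 ≤ s → 3 ≤ k → InClass s (SimpleGraph.cycleGraph k) :=
  fun s k _ hk => inClass_cycle s k hk

end Pool.Agent.Results.MP_747d65_pr.Cycles
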