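import Mathlib

/-!
# The multi-type urn process with annihilation

Definitions for problem MP_747d65_pr.
-/

namespace Pool.H30.Urn

open Finset MeasureTheory
open scoped Classical

/-- the content of an urn: `none` is the empty urn, `some (c, n)` means `n + 1` balls of the
colour `c` -/
abbrev Urn (s : ℕ) := Option (Fin s × ℕ)

/-- a configuration: the contents of the urns at the vertices -/
abbrev Config (s : ℕ) (V : Type*) := V → Urn s

variable {s : ℕ} {V : Type*}

/-- the number of balls in an urn -/
def balls : Urn s → ℕ
  | none => 0
  | some (_, n) => n + 1

/-- a new ball of colour `c` is sent to an urn -/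
def addBall (c : Fin s) : Urn s → Urn s
  | none => some (c, 0)
  | some (c', 0) => if c' = c then some (c, 1) else none
  | some (c', n + 1) => if c' = c then some (c, n + 2) else some (c', n)

/-- the total number of balls -/
def total [Fintype V] (x : Config s V) : ℕ := ∑ v, balls (x v)

/-- a ball of the urn at `v` is selected: it stays, and one new ball of its colour is sent to each
neighbour of `v` (nothing happens if the urn at `v` is empty) -/
noncomputable def step (G : SimpleGraph V) (x : Config s V) (v : V) : Config s V :=
  match x v with
  | none => x
  | some (c, _) => fun u => if G.Adj v u then addBall c (x u) else x u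

/-- the probability of the transition from `x` to `y`: one ball is selected uniformly among all
balls -/
noncomputable def trans [Fintype V] (G : SimpleGraph V) (x y : Config s V) : ℝ :=
  ∑ v, if step G x v = y then (balls (x v) : ℝ) / (total x : ℝ) else 0

/-- `X` is an urn process on `G` started from `x₀`: a Markov chain with transition probabilities
`trans G` -/
structure IsUrnProcess [Fintype V] (G : SimpleGraph V) (x₀ : Config s V) {Ω : Type*}
    [MeasurableSpace Ω] (P : Measure Ω) (X : ℕ → Ω → Config s V) : Prop where
  meas : ∀ n x, MeasurableSet {ω | X n ω = x}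
  start : P.real {ω | X 0 ω = x₀} = 1
  markov : ∀ (n : ℕ) (h : ℕ → Config s V) (y : Config s V),
    P.real {ω | (∀ i ≤ n, X i ω = h i) ∧ X (n + 1) ω = y} =
      P.real {ω | ∀ i ≤ n, X i ω = h i} * trans G (h n) y

/-- balls of colour `c` are present in `x` -/
def Present (c : Fin s) (x : Config s V) : Prop := ∃ v n, x v = some (c, n)

/-- the class `𝒢ₛ`: from every configuration with at least one ball, almost surely exactly one
colour survives, that is, is present at arbitrarily large times -/
def InClass [Fintype V] (s : ℕ) (G : SimpleGraph V) : Prop :=
  ∀ x₀ : Config s V, 0 < total x₀ →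
    ∀ (Ω : Type) (_ : MeasurableSpace Ω) (P : Measure Ω) (_ : IsProbabilityMeasure P)
      (X : ℕ → Ω → Config s V), IsUrnProcess G x₀ P X →
      ∀ᵐ ω ∂P, ∃! c : Fin s, ∀ N : ℕ, ∃ n ≥ N, Present c (X n ω)

end Pool.H30.Urn
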