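import Pool.Agent.helper30.Urn.Chain
import Pool.Agent.helper30.Urn.Defs

/-!
# From avoidance probabilities to the urn process
-/

namespace Pool.H30.Urn

open Finset MeasureTheory Filter Topology
open scoped Classical

variable {s : ℕ} {V : Type*}

set_option linter.unusedSectionVars false

lemma step_of_none (G : SimpleGraph V) {x : Config s V} {v : V} (h : x v = none) :
    step G x v = x := by
  unfold step; rw [h]

lemma step_of_some (G : SimpleGraph V) {x : Config s V} {v : V} {c : Fin s} {n : ℕ}
    (h : x v = some (c, n)) :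
    step G x v = fun u => if G.Adj v u then addBall c (x u) else x u := by
  unfold step; rw [h]

lemma step_self (G : SimpleGraph V) (x : Config s V) (v : V) : step G x v v = x v := by
  cases h : x v with
  | none => rw [step_of_none G h, h]
  | some p =>
    obtain ⟨c, n⟩ := p
    rw [step_of_some G h]
    show (if G.Adj v v then _ else x v) = _
    rw [if_neg (G.loopless.irrefl v), h]

lemma balls_pos_of_ne {a : Urn s} (h : a ≠ none) : 0 < balls a := by
  cases a with
  | none => exact absurd rfl h
  | some p => obtain ⟨c, n⟩ := p; exact Nat.succ_pos n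

variable [Fintype V]

lemma total_pos_iff {x : Config s V} : 0 < total x ↔ ∃ v, x v ≠ none := by
  constructor
  · intro h
    by_contra hc
    push Not at hc
    have : total x = 0 := Finset.sum_eq_zero (fun v _ => by rw [hc v]; rfl)
    omega
  · rintro ⟨v, hv⟩
    exact lt_of_lt_of_le (balls_pos_of_ne hv)
      (Finset.single_le_sum (f := fun v => balls (x v)) (fun _ _ => Nat.zero_le _)
        (Finset.mem_univ v))

lemma step_total (G : SimpleGraph V) {x : Config s V} (h : 0 < total x) (v : V) :
    0 < total (step G x v) := by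
  by_cases hv : x v = none
  · have : step G x v = x := by unfold step; rw [hv]
    rw [this]; exact h
  · exact total_pos_iff.mpr ⟨v, by rw [step_self]; exact hv⟩

/-- the urn chain -/
noncomputable def OC (G : SimpleGraph V) : Ch V {x : Config s V // 0 < total x} where
  q x v := (balls (x.1 v) : ℝ) / (total x.1 : ℝ)
  st x v := ⟨step G x.1 v, step_total G x.2 v⟩
  q_nonneg x v := div_nonneg (Nat.cast_nonneg _) (Nat.cast_nonneg _)
  q_sum x := by
    rw [← Finset.sum_div]
    have h : (total x.1 : ℝ) ≠ 0 := by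
      have := x.2
      exact_mod_cast this.ne'
    rw [div_eq_one_iff_eq h]
    unfold total
    push_cast
    rfl

section

variable {G : SimpleGraph V} {x₀ : Config s V} {Ω : Type*} [MeasurableSpace Ω] {P : Measure Ω}
  [IsProbabilityMeasure P] {X : ℕ → Ω → Config s V}

lemma hist_meas (hX : IsUrnProcess G x₀ P X) (n : ℕ) (h : ℕ → Config s V) :
    MeasurableSet {ω | ∀ i ≤ n, X i ω = h i} := by
  have : {ω | ∀ i ≤ n, X i ω = h i} = ⋂ i ∈ Finset.range (n + 1), {ω | X i ω = h i} := by
    ext ω
    simp only [Set.mem_ofPred_eq, Set.mem_iInter, Finset.mem_range]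
    exact ⟨fun h i hi => h i (by omega), fun h i hi => h i (by omega)⟩
  rw [this]
  exact Finset.measurableSet_biInter _ (fun i _ => hX.meas i (h i))

lemma trans_sum (G : SimpleGraph V) (x : {x : Config s V // 0 < total x}) (f : Config s V → ℝ) :
    ∑ y ∈ univ.image (step G x.1), trans G x.1 y * f y =
      ∑ v, (OC G).q x v * f (step G x.1 v) := by
  unfold trans
  simp_rw [Finset.sum_mul]
  rw [Finset.sum_comm]
  refine Finset.sum_congr rfl (fun v _ => ?_)
  rw [Finset.sum_eq_single (step G x.1 v)]
  · rw [if_pos rfl]; rfl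
  · intro y _ hy
    rw [if_neg (Ne.symm hy), zero_mul]
  · intro h
    exact absurd (Finset.mem_image_of_mem _ (Finset.mem_univ v)) h

lemma hist_step (h : ℕ → Config s V) (n : ℕ) (y : Config s V) :
    {ω | (∀ i ≤ n, X i ω = h i) ∧ X (n + 1) ω = y} =
      {ω | ∀ i ≤ n + 1, X i ω = Function.update h (n + 1) y i} := by
  ext ω
  simp only [Set.mem_ofPred_eq]
  constructor
  · rintro ⟨h1, h2⟩ i hi
    rcases Nat.lt_or_ge i (n + 1) with h3 | h3
    · rw [Function.update_of_ne (by omega)]; exact h1 i (by omega)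
    · have : i = n + 1 := by omega
      subst this
      rw [Function.update_self]; exact h2
  · intro h1
    refine ⟨fun i hi => ?_, ?_⟩
    · have := h1 i (by omega)
      rwa [Function.update_of_ne (by omega)] at this
    · have := h1 (n + 1) le_rfl
      rwa [Function.update_self] at this

/-- after a history, the next state is almost surely a possible one -/
lemma null_step (hX : IsUrnProcess G x₀ P X) (n : ℕ) (h : ℕ → Config s V) (hn : 0 < total (h n)) :
    P.real {ω | (∀ i ≤ n, X i ω = h i) ∧ X (n + 1) ω ∉ univ.image (step G (h n))} = 0 := by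
  set S := univ.image (step G (h n)) with hS
  have hmeas : ∀ y, MeasurableSet {ω | (∀ i ≤ n, X i ω = h i) ∧ X (n + 1) ω = y} := by
    intro y
    rw [hist_step]
    exact hist_meas hX _ _
  have h1 : P.real (⋃ y ∈ S, {ω | (∀ i ≤ n, X i ω = h i) ∧ X (n + 1) ω = y}) =
      P.real {ω | ∀ i ≤ n, X i ω = h i} := by
    rw [measureReal_biUnion_finset]
    · have h2 := trans_sum G ⟨h n, hn⟩ (fun _ => 1)
      simp only [mul_one] at h2
      rw [(OC G).q_sum ⟨h n, hn⟩] at h2
      simp_rw [hX.markov]
      rw [← Finset.mul_sum, hS, h2, mul_one]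
    · intro y _ z _ hyz
      refine Set.disjoint_left.mpr (fun ω h3 h4 => hyz ?_)
      exact h3.2.symm.trans h4.2
    · exact fun y _ => hmeas y
  have h2 : {ω | (∀ i ≤ n, X i ω = h i) ∧ X (n + 1) ω ∉ S} =
      {ω | ∀ i ≤ n, X i ω = h i} \ ⋃ y ∈ S, {ω | (∀ i ≤ n, X i ω = h i) ∧ X (n + 1) ω = y} := by
    ext ω
    simp only [Set.mem_ofPred_eq, Set.mem_sdiff, Set.mem_iUnion, exists_prop, not_exists, not_and]
    constructor
    · rintro ⟨h3, h4⟩
      refine ⟨h3, fun y hy _ h5 => h4 (by rw [h5]; exact hy)⟩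
    · rintro ⟨h3, h4⟩
      exact ⟨h3, fun h5 => h4 _ h5 h3 rfl⟩
  rw [h2, measureReal_sdiff]
  · rw [h1, sub_self]
  · intro ω hω
    simp only [Set.mem_iUnion, exists_prop, Set.mem_ofPred_eq] at hω
    obtain ⟨y, _, h3, _⟩ := hω
    exact h3
  · exact Finset.measurableSet_biUnion _ (fun y _ => hmeas y)

/-- avoidance probabilities -/
lemma avoid_le (hX : IsUrnProcess G x₀ P X) (D : Config s V → Prop) (n : ℕ) :
    ∀ (N : ℕ) (h : ℕ → Config s V) (hN : 0 < total (h N)),
      P.real {ω | (∀ i ≤ N, X i ω = h i) ∧ ∀ j, N ≤ j → j ≤ N + n → ¬ D (X j ω)} ≤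
        P.real {ω | ∀ i ≤ N, X i ω = h i} * (OC G).nh (fun x => D x.1) n ⟨h N, hN⟩ := by
  induction n with
  | zero =>
    intro N h hN
    rw [(OC G).nh_zero]
    by_cases hD : D (h N)
    · rw [if_pos hD, mul_zero]
      have : {ω | (∀ i ≤ N, X i ω = h i) ∧ ∀ j, N ≤ j → j ≤ N + 0 → ¬ D (X j ω)} = ∅ := by
        ext ω
        simp only [Set.mem_ofPred_eq, Set.mem_empty_iff_false, iff_false, not_and]
        intro h1 h2
        exact h2 N le_rfl le_rfl (by rw [h1 N le_rfl]; exact hD)
      rw [this, measureReal_empty]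
    · rw [if_neg hD, mul_one]
      exact measureReal_mono (fun ω hω => hω.1)
  | succ n ih =>
    intro N h hN
    rw [(OC G).nh_succ]
    by_cases hD : D (h N)
    · rw [if_pos hD, mul_zero]
      have : {ω | (∀ i ≤ N, X i ω = h i) ∧ ∀ j, N ≤ j → j ≤ N + (n + 1) → ¬ D (X j ω)} = ∅ := by
        ext ω
        simp only [Set.mem_ofPred_eq, Set.mem_empty_iff_false, iff_false, not_and]
        intro h1 h2
        exact h2 N le_rfl (by omega) (by rw [h1 N le_rfl]; exact hD)
      rw [this, measureReal_empty]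
    · rw [if_neg hD]
      set S := univ.image (step G (h N)) with hS
      have hpos : ∀ y ∈ S, 0 < total y := by
        intro y hy
        obtain ⟨v, _, rfl⟩ := Finset.mem_image.mp hy
        exact step_total G hN v
      set g : Config s V → ℝ := fun y =>
        if hy : 0 < total y then (OC G).nh (fun x => D x.1) n ⟨y, hy⟩ else 0 with hg
      have h1 : {ω | (∀ i ≤ N, X i ω = h i) ∧ ∀ j, N ≤ j → j ≤ N + (n + 1) → ¬ D (X j ω)} ⊆
          {ω | (∀ i ≤ N, X i ω = h i) ∧ X (N + 1) ω ∉ S} ∪
          ⋃ y ∈ S, {ω | (∀ i ≤ N + 1, X i ω = Function.update h (N + 1) y i) ∧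
            ∀ j, N + 1 ≤ j → j ≤ (N + 1) + n → ¬ D (X j ω)} := by
        rintro ω ⟨h2, h3⟩
        by_cases h4 : X (N + 1) ω ∈ S
        · right
          simp only [Set.mem_iUnion, exists_prop]
          refine ⟨X (N + 1) ω, h4, ?_, fun j hj1 hj2 => h3 j (by omega) (by omega)⟩
          have h5 : ω ∈ {ω' | (∀ i ≤ N, X i ω' = h i) ∧ X (N + 1) ω' = X (N + 1) ω} := ⟨h2, rfl⟩
          rw [hist_step] at h5
          exact h5
        · exact Or.inl ⟨h2, h4⟩
      refine (measureReal_mono h1).trans ((measureReal_union_le _ _).trans ?_)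
      rw [null_step hX N h hN, zero_add]
      refine (measureReal_biUnion_finset_le _ _).trans ?_
      have h2 : ∀ y ∈ S, P.real {ω | (∀ i ≤ N + 1, X i ω = Function.update h (N + 1) y i) ∧
            ∀ j, N + 1 ≤ j → j ≤ (N + 1) + n → ¬ D (X j ω)} ≤
          P.real {ω | ∀ i ≤ N, X i ω = h i} * (trans G (h N) y * g y) := by
        intro y hy
        have h3 : 0 < total (Function.update h (N + 1) y (N + 1)) := by
          rw [Function.update_self]; exact hpos y hy
        refine (ih (N + 1) (Function.update h (N + 1) y) h3).trans (le_of_eq ?_)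
        rw [← hist_step, hX.markov, mul_assoc]
        congr 2
        rw [hg]
        simp only [hpos y hy, dif_pos]
        congr 1
        exact Subtype.ext (Function.update_self _ _ _)
      refine (Finset.sum_le_sum h2).trans (le_of_eq ?_)
      rw [← Finset.mul_sum, hS, trans_sum G ⟨h N, hN⟩ g]
      congr 1
      unfold Ch.avg
      refine Finset.sum_congr rfl (fun v _ => ?_)
      congr 1
      rw [hg]
      have := step_total G hN v
      simp only [this, dif_pos]
      rfl

/-- almost surely every move is a possible one -/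
lemma ae_step (hX : IsUrnProcess G x₀ P X) (n : ℕ) :
    ∀ᵐ ω ∂P, 0 < total (X n ω) → ∃ v, X n ω v ≠ none ∧ X (n + 1) ω = step G (X n ω) v := by
  have h1 : ∀ g : Fin (n + 1) → Config s V, ∀ᵐ ω ∂P,
      (∀ i : Fin (n + 1), X i ω = g i) → 0 < total (g (Fin.last n)) →
        ∃ v, g (Fin.last n) v ≠ none ∧ X (n + 1) ω = step G (g (Fin.last n)) v := by
    intro g
    by_cases hg : 0 < total (g (Fin.last n))
    swap
    · exact ae_of_all _ (fun ω _ h => absurd h hg)
    set h : ℕ → Config s V := fun i => if hi : i < n + 1 then g ⟨i, hi⟩ else x₀ with hh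
    have hn : h n = g (Fin.last n) := by
      rw [hh]; simp only [Nat.lt_succ_self, dif_pos]; rfl
    have hn' : 0 < total (h n) := by rw [hn]; exact hg
    have h2 := null_step hX n h hn'
    set S := univ.image (step G (h n)) with hS
    have h3 : ∀ y ∈ S, (¬ ∃ v, h n v ≠ none ∧ y = step G (h n) v) →
        P.real {ω | (∀ i ≤ n, X i ω = h i) ∧ X (n + 1) ω = y} = 0 := by
      intro y _ hy
      rw [hX.markov]
      have : trans G (h n) y = 0 := by
        unfold trans
        refine Finset.sum_eq_zero (fun v _ => ?_)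
        by_cases h4 : step G (h n) v = y
        · have h5 : h n v = none := by
            by_contra h6
            exact hy ⟨v, h6, h4.symm⟩
          rw [if_pos h4, h5]
          simp [balls]
        · rw [if_neg h4]
      rw [this, mul_zero]
    have h4 : P.real ({ω | (∀ i ≤ n, X i ω = h i) ∧ X (n + 1) ω ∉ S} ∪
        ⋃ y ∈ S.filter (fun y => ¬ ∃ v, h n v ≠ none ∧ y = step G (h n) v),
          {ω | (∀ i ≤ n, X i ω = h i) ∧ X (n + 1) ω = y}) = 0 := by
      refine le_antisymm ?_ measureReal_nonneg
      refine (measureReal_union_le _ _).trans ?_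
      rw [h2, zero_add]
      refine (measureReal_biUnion_finset_le _ _).trans (le_of_eq ?_)
      refine Finset.sum_eq_zero (fun y hy => ?_)
      rw [Finset.mem_filter] at hy
      exact h3 y hy.1 hy.2
    rw [measureReal_eq_zero_iff] at h4
    filter_upwards [measure_eq_zero_iff_ae_notMem.mp h4] with ω hω h5 _
    rw [← hn]
    by_contra hcon
    apply hω
    have h6 : ∀ i ≤ n, X i ω = h i := by
      intro i hi
      have := h5 ⟨i, by omega⟩
      rw [hh]
      simp only [show i < n + 1 by omega, dif_pos]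
      exact this
    by_cases h7 : X (n + 1) ω ∈ S
    · right
      simp only [Set.mem_iUnion, exists_prop, Finset.mem_filter]
      exact ⟨X (n + 1) ω, ⟨h7, hcon⟩, h6, rfl⟩
    · exact Or.inl ⟨h6, h7⟩
  rw [← ae_all_iff] at h1
  filter_upwards [h1] with ω hω hpos
  exact hω (fun i => X i ω) (fun i => rfl) hpos

/-- one colour only -/
def One (c : Fin s) (x : Config s V) : Prop := ∀ v, x v = none ∨ ∃ n, x v = some (c, n)

lemma One_step {c : Fin s} {x : Config s V} (h : One c x) (v : V) : One c (step G x v) := by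
  unfold step
  split
  · exact h
  · rename_i c' n hv
    have hc : c' = c := by
      rcases h v with h1 | ⟨m, h1⟩
      · rw [hv] at h1; exact absurd h1 (by simp)
      · rw [hv] at h1
        simpa using congrArg (fun o => (o.map Prod.fst)) h1
    subst hc
    intro u
    show (if G.Adj v u then addBall c' (x u) else x u) = none ∨
      ∃ n, (if G.Adj v u then addBall c' (x u) else x u) = some (c', n)
    split_ifs
    · rcases h u with h1 | ⟨m, h1⟩
      · right; rw [h1]; exact ⟨0, rfl⟩
      · right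
        rw [h1]
        cases m with
        | zero => exact ⟨1, by simp [addBall]⟩
        | succ m => exact ⟨m + 2, by simp [addBall]⟩
    · exact h u

lemma trans_pos_total {x : Config s V} {v : V} (h : x v ≠ none) : 0 < total (step G x v) :=
  total_pos_iff.mpr ⟨v, by rw [step_self]; exact h⟩

end

/-- **criterion**: if from every state the chain reaches a configuration with one colour almost
surely, then `G` is in the class -/
theorem inClass_of_nhL (G : SimpleGraph V)
    (H : ∀ x : {x : Config s V // 0 < total x},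
      (OC G).nhL (fun x => ∃ c, One c x.1) x = 0) : InClass s G := by
  intro x₀ hx₀ Ω _ P _ X hX
  have h0 : ∀ᵐ ω ∂P, X 0 ω = x₀ := by
    have h1 := hX.start
    have h2 : P {ω | X 0 ω = x₀} = 1 := by
      rw [measureReal_def] at h1
      rw [← ENNReal.toReal_eq_one_iff]
      exact h1
    exact (prob_compl_eq_zero_iff (hX.meas 0 x₀)).mpr h2
  -- almost surely one colour at some time
  have h1 : ∀ n, P.real {ω | ∀ j ≤ n, ¬ ∃ c, One c (X j ω)} ≤
      (OC G).nh (fun x => ∃ c, One c x.1) n ⟨x₀, hx₀⟩ := by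
    intro n
    have h2 := avoid_le hX (fun x => ∃ c, One c x) n 0 (fun _ => x₀) hx₀
    have h3 : P.real {ω | ∀ j ≤ n, ¬ ∃ c, One c (X j ω)} ≤
        P.real {ω | (∀ i ≤ 0, X i ω = x₀) ∧ ∀ j, 0 ≤ j → j ≤ 0 + n → ¬ ∃ c, One c (X j ω)} := by
      refine ENNReal.toReal_mono (measure_ne_top _ _) (measure_mono_ae ?_)
      filter_upwards [h0] with ω hω h4
      refine ⟨fun i hi => ?_, fun j _ hj => h4 j (by omega)⟩
      rw [Nat.le_zero.mp hi]
      exact hω
    refine h3.trans (h2.trans ?_)
    have h4 : P.real {ω | ∀ i ≤ 0, X i ω = x₀} ≤ 1 := measureReal_le_one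
    have h5 := (OC G).nh_nonneg (fun x => ∃ c, One c x.1) n ⟨x₀, hx₀⟩
    calc _ ≤ 1 * (OC G).nh (fun x => ∃ c, One c x.1) n ⟨x₀, hx₀⟩ :=
          mul_le_mul_of_nonneg_right h4 h5
      _ = _ := one_mul _
  have h2 : P {ω | ∀ j, ¬ ∃ c, One c (X j ω)} = 0 := by
    have h3 : P.real {ω | ∀ j, ¬ ∃ c, One c (X j ω)} ≤ 0 := by
      have h4 := (OC G).nh_tendsto (fun x => ∃ c, One c x.1) ⟨x₀, hx₀⟩
      rw [H] at h4
      refine ge_of_tendsto' h4 (fun n => le_trans ?_ (h1 n))
      exact measureReal_mono (fun ω hω j _ => hω j)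
    exact (measureReal_eq_zero_iff).mp (le_antisymm h3 measureReal_nonneg)
  have h3 : ∀ᵐ ω ∂P, ∃ j, ∃ c, One c (X j ω) := by
    filter_upwards [measure_eq_zero_iff_ae_notMem.mp h2] with ω hω
    by_contra hc
    push Not at hc
    apply hω
    intro j
    push Not
    exact hc j
  have h4 : ∀ᵐ ω ∂P, ∀ n, 0 < total (X n ω) →
      ∃ v, X n ω v ≠ none ∧ X (n + 1) ω = step G (X n ω) v :=
    ae_all_iff.mpr (fun n => ae_step hX n)
  filter_upwards [h0, h3, h4] with ω hω0 hω3 hω4
  have hpos : ∀ n, 0 < total (X n ω) := by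
    intro n
    induction n with
    | zero => rw [hω0]; exact hx₀
    | succ n ih =>
      obtain ⟨v, hv, h5⟩ := hω4 n ih
      rw [h5]
      exact trans_pos_total hv
  obtain ⟨j, c, hc⟩ := hω3
  have hone : ∀ m, One c (X (j + m) ω) := by
    intro m
    induction m with
    | zero => exact hc
    | succ m ih =>
      obtain ⟨v, hv, h5⟩ := hω4 (j + m) (hpos _)
      rw [← add_assoc, h5]
      exact One_step ih v
  refine ⟨c, fun N => ?_, fun c' hc' => ?_⟩
  · refine ⟨j + N, by omega, ?_⟩
    obtain ⟨v, hv⟩ := total_pos_iff.mp (hpos (j + N))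
    rcases hone N v with h5 | ⟨m, h5⟩
    · exact absurd h5 hv
    · exact ⟨v, m, h5⟩
  · obtain ⟨n, hn, v, m, h5⟩ := hc' j
    obtain ⟨d, rfl⟩ : ∃ d, n = j + d := ⟨n - j, by omega⟩
    rcases hone d v with h6 | ⟨m', h6⟩
    · rw [h5] at h6; exact absurd h6 (by simp)
    · rw [h5] at h6
      simpa using congrArg (fun o => (o.map Prod.fst)) h6

end Pool.H30.Urn
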