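import Pool.Agent.helper30.Urn.Absorb
import Pool.Agent.helper30.Urn.Proc

/-!
# Cycles lie in the class of graphs without coexistence
-/

namespace Pool.H30.Urn

open Finset MeasureTheory Filter Topology
open scoped Classical

variable {k s : ℕ}

/-- comparison of avoidance probabilities along a map of chains -/
lemma nh_le_of_map {V α β : Type*} [Fintype V] (C : Ch V α) (C' : Ch V β) (φ : α → β)
    (hq : ∀ x v, C'.q (φ x) v = C.q x v)
    (hst : ∀ x v, C'.st (φ x) v = φ (C.st x v)) (D : α → Prop) (D' : β → Prop)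
    (hD : ∀ x, D x → D' (φ x)) (n : ℕ) (x : α) : C'.nh D' n (φ x) ≤ C.nh D n x := by
  induction n generalizing x with
  | zero =>
    rw [C'.nh_zero, C.nh_zero]
    by_cases h : D x
    · rw [if_pos h, if_pos (hD x h)]
    · rw [if_neg h]; split_ifs <;> norm_num
  | succ n ih =>
    rw [C'.nh_succ, C.nh_succ]
    by_cases h : D x
    · rw [if_pos h, if_pos (hD x h)]
    · rw [if_neg h]
      split_ifs
      · exact C.avg_nonneg (fun v => C.nh_nonneg _ _ _)
      · unfold Ch.avg
        refine Finset.sum_le_sum (fun v _ => ?_)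
        rw [hq, hst]
        exact mul_le_mul_of_nonneg_left (ih _) (C.q_nonneg x v)

/-- forget the ghosts -/
def pr : ℕ × Fin s → Urn s
  | (0, _) => none
  | (n + 1, c) => some (c, n)

lemma pr_op (c : Fin s) (p : ℕ × Fin s) : pr (op c p) = addBall c (pr p) := by
  obtain ⟨n, e⟩ := p
  unfold op
  rcases n with _ | _ | n
  · by_cases h : e = c
    · subst h; simp [pr, addBall]
    · simp [pr, addBall, h]
  · by_cases h : e = c
    · subst h; simp [pr, addBall]
    · simp [pr, addBall, h]
  · by_cases h : e = c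
    · subst h; simp [pr, addBall]
    · simp [pr, addBall, h]

lemma balls_pr (p : ℕ × Fin s) : balls (pr p) = p.1 := by
  obtain ⟨n, e⟩ := p
  cases n <;> rfl

lemma pr_eq_none {p : ℕ × Fin s} (h : p.1 = 0) : pr p = none := by
  obtain ⟨n, e⟩ := p
  simp only at h
  subst h
  rfl

lemma pr_eq_some {p : ℕ × Fin s} (h : p.1 ≠ 0) : pr p = some (p.2, p.1 - 1) := by
  obtain ⟨n, e⟩ := p
  cases n with
  | zero => exact absurd rfl h
  | succ n => rfl

lemma pr_ecs (G : SimpleGraph (ZMod k)) (hG : ∀ u v, G.Adj u v ↔ (v = u + 1 ∨ v = u - 1))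
    (x : ZMod k → ℕ × Fin s) (v : ZMod k) :
    step G (fun u => pr (x u)) v = fun u => pr (ecs x v u) := by
  by_cases hv : (x v).1 = 0
  · rw [step_of_none G (show (fun u => pr (x u)) v = none from pr_eq_none hv)]
    unfold ecs
    rw [if_pos hv]
  · rw [step_of_some G (show (fun u => pr (x u)) v = some _ from pr_eq_some hv)]
    unfold ecs
    rw [if_neg hv]
    funext u
    by_cases h : u = v + 1 ∨ u = v - 1
    · rw [if_pos ((hG v u).mpr h), if_pos h, pr_op]
    · rw [if_neg (fun e => h ((hG v u).mp e)), if_neg h]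

/-- the configuration of a state -/
def cf [NeZero k] (x : ES k s) : {x : Config s (ZMod k) // 0 < total x} :=
  ⟨fun u => pr (x.1 u), by
    obtain ⟨i, hi⟩ := x.2
    refine total_pos_iff.mpr ⟨i, ?_⟩
    rw [pr_eq_some hi]
    simp⟩

lemma total_cf [NeZero k] (x : ZMod k → ℕ × Fin s) :
    total (fun u => pr (x u)) = tot x := by
  unfold total tot
  exact Finset.sum_congr rfl (fun u _ => balls_pr _)

lemma cf_surj [NeZero k] (x : {x : Config s (ZMod k) // 0 < total x}) : ∃ z : ES k s, cf z = x := by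
  obtain ⟨v, hv⟩ := total_pos_iff.mp x.2
  obtain ⟨⟨c, n⟩, hc⟩ := Option.ne_none_iff_exists'.mp hv
  set z : ZMod k → ℕ × Fin s := fun u =>
    match x.1 u with
    | none => (0, c)
    | some (c', m) => (m + 1, c') with hz
  have h1 : ∀ u, pr (z u) = x.1 u := by
    intro u
    rw [hz]
    show pr (match x.1 u with
    | none => (0, c)
    | some (c', m) => (m + 1, c')) = x.1 u
    cases h : x.1 u with
    | none => rfl
    | some p => rfl
  have h2 : (z v).1 ≠ 0 := by
    intro h
    have := pr_eq_none h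
    rw [h1] at this
    exact hv this
  exact ⟨⟨z, v, h2⟩, Subtype.ext (funext h1)⟩

lemma one_of_mono [NeZero k] {x : ES k s} (h : Mono x) : ∃ c, One c (cf x).1 := by
  have h1 : ∀ i : ZMod k, (x.1 i).2 = (x.1 (i + 1)).2 := by
    intro i
    by_contra hne
    have h2 : 0 < mF (col x.1) := by
      unfold mF
      refine Finset.sum_pos' (fun _ _ => Nat.zero_le _) ⟨i, Finset.mem_univ i, ?_⟩
      rw [if_neg (show ¬ col x.1 i = col x.1 (i + 1) from hne)]
      exact one_pos
    unfold Mono at h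
    omega
  have h2 : ∀ r : ℕ, (x.1 (r : ZMod k)).2 = (x.1 0).2 := by
    intro r
    induction r with
    | zero => simp
    | succ r ih =>
      rw [← ih, h1 (r : ZMod k)]
      push_cast
      rfl
  refine ⟨(x.1 0).2, fun v => ?_⟩
  have h3 := h2 v.val
  rw [ZMod.natCast_zmod_val] at h3
  show pr (x.1 v) = none ∨ ∃ n, pr (x.1 v) = some ((x.1 0).2, n)
  by_cases hv : (x.1 v).1 = 0
  · exact Or.inl (pr_eq_none hv)
  · right
    rw [pr_eq_some hv, h3]
    exact ⟨_, rfl⟩

theorem inClass_zmod [NeZero k] (hk : 3 ≤ k) (s : ℕ) (G : SimpleGraph (ZMod k))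
    (hG : ∀ u v, G.Adj u v ↔ (v = u + 1 ∨ v = u - 1)) : InClass s G := by
  refine inClass_of_nhL G (fun x => ?_)
  obtain ⟨z, rfl⟩ := cf_surj x
  refine le_antisymm ?_ ((OC G).nhL_nonneg _ _)
  rw [← absorb hk z]
  refine ge_of_tendsto' ((EC hk).nh_tendsto Mono z) (fun n => ((OC G).nhL_le _ n _).trans ?_)
  refine nh_le_of_map (EC hk) (OC G) cf (fun x v => ?_) (fun x v => ?_) Mono _
    (fun x hx => one_of_mono hx) n z
  · show (balls (pr (x.1 v)) : ℝ) / (total (fun u => pr (x.1 u)) : ℝ) = _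
    rw [balls_pr, total_cf]
    rfl
  · exact Subtype.ext (pr_ecs G hG x.1 v)

lemma cycle_adj (n : ℕ) (u v : Fin (n + 3)) :
    (SimpleGraph.cycleGraph (n + 3)).Adj u v ↔ (v = u + 1 ∨ v = u - 1) := by
  rw [SimpleGraph.cycleGraph_adj]
  constructor
  · rintro (h | h)
    · right
      rw [← h, sub_sub_cancel]
    · left
      rw [← h, add_sub_cancel]
  · rintro (h | h)
    · right
      rw [h, add_sub_cancel_left]
    · left
      rw [h, sub_sub_cancel]

/-- **every cycle of length at least `3` lies in `𝒢ₛ`** -/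
theorem inClass_cycle (s k : ℕ) (hk : 3 ≤ k) : InClass s (SimpleGraph.cycleGraph k) := by
  obtain ⟨n, rfl⟩ : ∃ n, k = n + 3 := ⟨k - 3, by omega⟩
  exact inClass_zmod (k := n + 3) hk s (SimpleGraph.cycleGraph (n + 3))
    (fun u v => cycle_adj n u v)

end Pool.H30.Urn
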