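import Pool.Agent.helper30.Urn.Moment

/-!
# Twisted Fourier modes on a cycle with signs on the edges
-/

namespace Pool.H30.Urn

open Finset Filter Topology
open scoped Classical ComplexConjugate

variable {k : ℕ}

/-- product of the signs of the first `r` edges -/
def Pp (t : ZMod k → ℤˣ) (r : ℕ) : ℤˣ := ∏ e ∈ range r, t (e : ZMod k)

lemma Pp_zero (t : ZMod k → ℤˣ) : Pp t 0 = 1 := by simp [Pp]

lemma Pp_succ (t : ZMod k → ℤˣ) (r : ℕ) : Pp t (r + 1) = Pp t r * t (r : ZMod k) := by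
  unfold Pp; rw [Finset.prod_range_succ]

lemma Pp_add (t : ZMod k → ℤˣ) (r : ℕ) : Pp t (r + k) = Pp t r * Pp t k := by
  induction r with
  | zero => simp [Pp_zero]
  | succ r ih =>
    rw [show r + 1 + k = (r + k) + 1 by ring, Pp_succ, ih, Pp_succ]
    have : ((r + k : ℕ) : ZMod k) = (r : ZMod k) := by simp
    rw [this, mul_right_comm]

/-- the angle of the mode `l` -/
noncomputable def theta (k b l : ℕ) : ℝ := Real.pi * (2 * l + b) / k

noncomputable def om (k b l : ℕ) : ℂ := Complex.exp ((theta k b l : ℝ) * Complex.I)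

lemma om_norm (k b l : ℕ) : ‖om k b l‖ = 1 := Complex.norm_exp_ofReal_mul_I _

lemma om_pow (k b l : ℕ) (hk : k ≠ 0) : om k b l ^ k = (-1) ^ b := by
  unfold om theta
  rw [← Complex.exp_nat_mul]
  have hk' : (k : ℂ) ≠ 0 := Nat.cast_ne_zero.mpr hk
  have h : (k : ℂ) * (((Real.pi * (2 * l + b) / k : ℝ) : ℂ) * Complex.I) =
      (b : ℂ) * (Real.pi * Complex.I) + (l : ℂ) * (2 * Real.pi * Complex.I) := by
    push_cast
    field_simp
    ring
  rw [h, Complex.exp_add, Complex.exp_nat_mul, Complex.exp_pi_mul_I, Complex.exp_nat_mul,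
    Complex.exp_two_pi_mul_I, one_pow, mul_one]

/-- the mode along the natural numbers -/
noncomputable def Wn (t : ZMod k → ℤˣ) (b l r : ℕ) : ℂ := ((Pp t r : ℤ) : ℂ) * om k b l ^ r

lemma Wn_periodic (t : ZMod k → ℤˣ) (b l : ℕ) (hk : k ≠ 0) (h : Pp t k = (-1) ^ b) :
    Function.Periodic (Wn t b l) k := by
  intro r
  unfold Wn
  rw [Pp_add, pow_add, om_pow k b l hk, h]
  push_cast
  have : ((-1 : ℂ) ^ b) * (-1) ^ b = 1 := by rw [← mul_pow]; simp
  linear_combination ((Pp t r : ℤ) : ℂ) * om k b l ^ r * this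

/-- the mode on the cycle -/
noncomputable def wm (t : ZMod k → ℤˣ) (b l : ℕ) (i : ZMod k) : ℂ := Wn t b l i.val

lemma wm_natCast (t : ZMod k → ℤˣ) (b l : ℕ) (hk : k ≠ 0) (h : Pp t k = (-1) ^ b) (r : ℕ) :
    wm t b l (r : ZMod k) = Wn t b l r := by
  unfold wm
  rw [ZMod.val_natCast]
  exact (Wn_periodic t b l hk h).map_mod_nat r

lemma Wn_succ (t : ZMod k → ℤˣ) (b l r : ℕ) :
    Wn t b l (r + 1) = ((t (r : ZMod k) : ℤ) : ℂ) * om k b l * Wn t b l r := by
  unfold Wn
  rw [Pp_succ, pow_succ]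
  push_cast
  ring

lemma wm_succ [NeZero k] (t : ZMod k → ℤˣ) (b l : ℕ) (h : Pp t k = (-1) ^ b) (i : ZMod k) :
    wm t b l (i + 1) = ((t i : ℤ) : ℂ) * om k b l * wm t b l i := by
  have hk : k ≠ 0 := NeZero.ne k
  have h1 : (i.val : ZMod k) = i := ZMod.natCast_zmod_val i
  have h2 : i + 1 = ((i.val + 1 : ℕ) : ZMod k) := by push_cast; rw [h1]
  rw [h2, wm_natCast t b l hk h, Wn_succ, h1]
  rfl

lemma units_cast_sq (a : ℤˣ) : ((a : ℤ) : ℂ) * ((a : ℤ) : ℂ) = 1 := by
  rcases Int.units_eq_one_or a with h | h <;> simp [h]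

lemma units_norm (a : ℤˣ) : ‖((a : ℤ) : ℂ)‖ = 1 := by
  rcases Int.units_eq_one_or a with h | h <;> simp [h]

lemma units_conj (a : ℤˣ) : conj ((a : ℤ) : ℂ) = ((a : ℤ) : ℂ) := by
  rcases Int.units_eq_one_or a with h | h <;> simp [h]

lemma Wn_norm (t : ZMod k → ℤˣ) (b l r : ℕ) : ‖Wn t b l r‖ = 1 := by
  unfold Wn
  rw [norm_mul, norm_pow, om_norm, one_pow, mul_one, units_norm]

lemma wm_norm (t : ZMod k → ℤˣ) (b l : ℕ) (i : ZMod k) : ‖wm t b l i‖ = 1 := Wn_norm _ _ _ _

lemma om_conj_mul (k b l : ℕ) : conj (om k b l) * om k b l = 1 := by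
  rw [Complex.conj_mul', om_norm]; simp

lemma om_eq (k b l : ℕ) (hk : k ≠ 0) :
    om k b l = om k b 0 * Complex.exp (2 * Real.pi * Complex.I / k) ^ l := by
  unfold om theta
  rw [← Complex.exp_nat_mul, ← Complex.exp_add]
  congr 1
  have hk' : (k : ℂ) ≠ 0 := Nat.cast_ne_zero.mpr hk
  push_cast
  field_simp
  ring

/-- column orthogonality -/
lemma orth [NeZero k] (t : ZMod k → ℤˣ) (b : ℕ) (i j : ZMod k) :
    ∑ l ∈ range k, conj (wm t b l j) * wm t b l i = if i = j then (k : ℂ) else 0 := by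
  have hk : k ≠ 0 := NeZero.ne k
  split_ifs with h
  · subst h
    have : ∀ l ∈ range k, conj (wm t b l i) * wm t b l i = 1 := by
      intro l _
      rw [Complex.conj_mul', wm_norm]; simp
    rw [Finset.sum_congr rfl this]
    simp
  · set ξ := Complex.exp (2 * Real.pi * Complex.I / k) with hξ
    have hprim : IsPrimitiveRoot ξ k := Complex.isPrimitiveRoot_exp k hk
    have hξn : ‖ξ‖ = 1 := hprim.norm'_eq_one hk
    have hξc : conj ξ * ξ = 1 := by rw [Complex.conj_mul', hξn]; simp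
    set a : ℂ := ξ ^ i.val * conj ξ ^ j.val with ha
    have ha1 : a ≠ 1 := by
      intro h1
      have h2 : ξ ^ i.val = ξ ^ j.val := by
        have h3 : a * ξ ^ j.val = ξ ^ i.val := by
          rw [ha, mul_assoc, ← mul_pow, hξc, one_pow, mul_one]
        rw [← h3, h1, one_mul]
      have h4 := hprim.pow_inj (ZMod.val_lt i) (ZMod.val_lt j) h2
      exact h (ZMod.val_injective k h4)
    have hak : a ^ k = 1 := by
      rw [ha, mul_pow, ← pow_mul, ← pow_mul, mul_comm i.val, mul_comm j.val, pow_mul, pow_mul,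
        hprim.pow_eq_one, ← map_pow, hprim.pow_eq_one]
      simp
    have hgeom : ∑ l ∈ range k, a ^ l = 0 := by
      have h5 := geom_sum_mul a k
      rw [hak, sub_self] at h5
      exact (mul_eq_zero.mp h5).resolve_right (sub_ne_zero.mpr ha1)
    have hterm : ∀ l ∈ range k, conj (wm t b l j) * wm t b l i =
        (((Pp t j.val : ℤ) : ℂ) * ((Pp t i.val : ℤ) : ℂ) *
          (conj (om k b 0) ^ j.val * om k b 0 ^ i.val)) * a ^ l := by
      intro l _
      unfold wm Wn
      rw [map_mul, units_conj, map_pow, om_eq k b l hk, map_mul, map_pow, ← hξ, ha]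
      ring
    rw [Finset.sum_congr rfl hterm, ← Finset.mul_sum, hgeom, mul_zero]

/-- the coefficient of the mode `l` -/
noncomputable def Zc [NeZero k] (t : ZMod k → ℤˣ) (b l : ℕ) (y : ZMod k → ℤ) : ℂ :=
  ∑ j, ((y j : ℤ) : ℂ) * conj (wm t b l j)

lemma inversion [NeZero k] (t : ZMod k → ℤˣ) (b : ℕ) (y : ZMod k → ℤ) (i : ZMod k) :
    (k : ℂ) * y i = ∑ l ∈ range k, Zc t b l y * wm t b l i := by
  unfold Zc
  simp_rw [Finset.sum_mul]
  rw [Finset.sum_comm]
  have : ∀ j ∈ (univ : Finset (ZMod k)), ∑ l ∈ range k, ((y j : ℤ) : ℂ) * conj (wm t b l j) *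
      wm t b l i = if i = j then (k : ℂ) * y j else 0 := by
    intro j _
    have h := orth t b i j
    calc ∑ l ∈ range k, ((y j : ℤ) : ℂ) * conj (wm t b l j) * wm t b l i
        = ((y j : ℤ) : ℂ) * ∑ l ∈ range k, conj (wm t b l j) * wm t b l i := by
          rw [Finset.mul_sum]
          exact Finset.sum_congr rfl (fun l _ => by ring)
      _ = _ := by
          rw [h]
          split_ifs
          · ring
          · simp
  rw [Finset.sum_congr rfl this, Finset.sum_ite_eq]
  simp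

/-- the rate of the mode `l` -/
noncomputable def lm (k b l : ℕ) : ℝ := 2 * Real.cos (theta k b l)

lemma om_add_conj (k b l : ℕ) : om k b l + conj (om k b l) = (lm k b l : ℝ) := by
  rw [Complex.add_conj]
  unfold om lm
  rw [Complex.exp_ofReal_mul_I_re]

/-- the modes which are not on top -/
def Nt (k b : ℕ) : Finset ℕ := (range k).filter (fun l => 1 ≤ l ∧ l + b < k)

lemma lm_lt {k b l : ℕ} (hl : l ∈ Nt k b) : lm k b l < lm k b 0 := by
  unfold Nt at hl
  rw [Finset.mem_filter, Finset.mem_range] at hl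
  obtain ⟨h1, h2, h3⟩ := hl
  have hk : (0 : ℝ) < k := by
    have : 0 < k := by omega
    exact_mod_cast this
  have hpi := Real.pi_pos
  unfold lm
  refine mul_lt_mul_of_pos_left ?_ two_pos
  have hb0 : (0 : ℝ) ≤ b := Nat.cast_nonneg b
  have hl1 : (1 : ℝ) ≤ l := by exact_mod_cast h2
  have hlk : (l : ℝ) + b < k := by exact_mod_cast h3
  have e0 : theta k b 0 = Real.pi * b / k := by unfold theta; push_cast; ring_nf
  have h0 : 0 ≤ theta k b 0 := by rw [e0]; positivity
  have h01 : theta k b 0 < theta k b l := by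
    rw [e0]; unfold theta
    refine div_lt_div_of_pos_right (mul_lt_mul_of_pos_left ?_ hpi) hk
    linarith
  by_cases hle : theta k b l ≤ Real.pi
  · exact Real.cos_lt_cos_of_nonneg_of_le_pi h0 hle h01
  · push Not at hle
    rw [← Real.cos_two_pi_sub (theta k b l)]
    refine Real.cos_lt_cos_of_nonneg_of_le_pi h0 (by linarith) ?_
    have h5 : theta k b 0 + theta k b l < 2 * Real.pi := by
      have h6 : theta k b 0 + theta k b l = 2 * Real.pi * ((l + b) / k) := by
        unfold theta; push_cast; field_simp; ring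
      rw [h6]
      have h7 : ((l : ℝ) + b) / k < 1 := by rw [div_lt_one hk]; exact hlk
      nlinarith
    linarith

lemma exists_gap (k b : ℕ) : ∃ g : ℝ, 0 < g ∧ ∀ l ∈ Nt k b, lm k b l + g ≤ lm k b 0 := by
  have h : ∀ s : Finset ℕ, (∀ l ∈ s, lm k b l < lm k b 0) →
      ∃ g : ℝ, 0 < g ∧ ∀ l ∈ s, lm k b l + g ≤ lm k b 0 := by
    intro s
    induction s using Finset.induction_on with
    | empty => intro _; exact ⟨1, one_pos, by simp⟩
    | insert a s ha ih =>
      intro hs
      obtain ⟨g, hg, hg2⟩ := ih (fun l hl => hs l (Finset.mem_insert_of_mem hl))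
      have h1 := hs a (Finset.mem_insert_self a s)
      refine ⟨min g (lm k b 0 - lm k b a), lt_min hg (by linarith), fun l hl => ?_⟩
      rcases Finset.mem_insert.mp hl with h2 | h2
      · rw [h2]
        have := min_le_right g (lm k b 0 - lm k b a)
        linarith
      · have := min_le_left g (lm k b 0 - lm k b a)
        have := hg2 l h2
        linarith
  exact h (Nt k b) (fun l hl => lm_lt hl)

lemma lm_le_two (k b l : ℕ) : lm k b l ≤ 2 := by
  unfold lm; linarith [Real.cos_le_one (theta k b l)]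

lemma lm_sq_le (k b l : ℕ) : lm k b l ^ 2 ≤ 4 := by
  unfold lm
  nlinarith [Real.cos_le_one (theta k b l), Real.neg_one_le_cos (theta k b l)]

/-! ### the signed chain -/

/-- one move of the signed chain -/
def sst (t : ZMod k → ℤˣ) (y : ZMod k → ℤ) (v : ZMod k) : ZMod k → ℤ := fun u =>
  y u + (if u = v + 1 then Int.sign (y v) * t v else 0) +
    (if u = v - 1 then Int.sign (y v) * t (v - 1) else 0)

lemma one_ne_zero_zmod (hk : 3 ≤ k) : (1 : ZMod k) ≠ 0 := by
  have : Fact (1 < k) := ⟨by omega⟩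
  exact one_ne_zero

lemma two_ne_zero_zmod (hk : 3 ≤ k) : (1 : ZMod k) + 1 ≠ 0 := by
  intro h
  have h2 : ((2 : ℕ) : ZMod k) = 0 := by push_cast; rw [← h]; ring
  rw [ZMod.natCast_eq_zero_iff] at h2
  exact absurd (Nat.le_of_dvd (by norm_num) h2) (by omega)

lemma sst_self (hk : 3 ≤ k) (t : ZMod k → ℤˣ) (y : ZMod k → ℤ) (v : ZMod k) :
    sst t y v v = y v := by
  unfold sst
  have h1 := one_ne_zero_zmod hk
  rw [if_neg, if_neg, add_zero, add_zero]
  · intro h
    apply h1
    have : v - (v - 1) = 1 := by ring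
    rw [← this, ← h]; ring
  · intro h
    apply h1
    have : v + 1 - v = 1 := by ring
    rw [← this, ← h]; ring

lemma sst_ne (hk : 3 ≤ k) (t : ZMod k → ℤˣ) (y : ZMod k → ℤ) (hy : y ≠ 0) (v : ZMod k) :
    sst t y v ≠ 0 := by
  intro h
  have h1 : y v = 0 := by rw [← sst_self hk t y v, h]; rfl
  apply hy
  rw [← h]
  funext u
  unfold sst
  simp [h1]

abbrev St (k : ℕ) := {y : ZMod k → ℤ // y ≠ 0}

noncomputable def Tt [NeZero k] (y : ZMod k → ℤ) : ℝ := ∑ i, |(y i : ℝ)|

lemma Tt_one_le [NeZero k] {y : ZMod k → ℤ} (hy : y ≠ 0) : 1 ≤ Tt y := by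
  obtain ⟨v, hv⟩ := Function.ne_iff.mp hy
  have h1 : (1 : ℝ) ≤ |(y v : ℝ)| := by
    have : 1 ≤ |y v| := Int.one_le_abs hv
    exact_mod_cast this
  exact h1.trans (Finset.single_le_sum (f := fun i => |(y i : ℝ)|) (fun i _ => abs_nonneg _)
    (Finset.mem_univ v))

/-- the signed chain -/
noncomputable def SC [NeZero k] (hk : 3 ≤ k) (t : ZMod k → ℤˣ) : Ch (ZMod k) (St k) where
  q y v := |(y.1 v : ℝ)| / Tt y.1
  st y v := ⟨sst t y.1 v, sst_ne hk t y.1 y.2 v⟩
  q_nonneg y v := div_nonneg (abs_nonneg _) (le_trans zero_le_one (Tt_one_le y.2))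
  q_sum y := by
    rw [← Finset.sum_div]
    exact div_self (ne_of_gt (lt_of_lt_of_le one_pos (Tt_one_le y.2)))

lemma Zc_sst [NeZero k] (t : ZMod k → ℤˣ) (b l : ℕ) (h : Pp t k = (-1) ^ b)
    (y : ZMod k → ℤ) (v : ZMod k) :
    Zc t b l (sst t y v) = Zc t b l y + (lm k b l : ℝ) * ((Int.sign (y v) : ℂ) *
      conj (wm t b l v)) := by
  have h1 : Zc t b l (sst t y v) = Zc t b l y +
      (Int.sign (y v) : ℂ) * ((t v : ℤ) : ℂ) * conj (wm t b l (v + 1)) +
      (Int.sign (y v) : ℂ) * ((t (v - 1) : ℤ) : ℂ) * conj (wm t b l (v - 1)) := by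
    unfold Zc sst
    have : ∀ j ∈ (univ : Finset (ZMod k)),
        (((y j + (if j = v + 1 then Int.sign (y v) * t v else 0) +
          (if j = v - 1 then Int.sign (y v) * t (v - 1) else 0) : ℤ)) : ℂ) * conj (wm t b l j) =
        (y j : ℂ) * conj (wm t b l j) +
        (if j = v + 1 then (Int.sign (y v) : ℂ) * ((t v : ℤ) : ℂ) * conj (wm t b l j) else 0) +
        (if j = v - 1 then (Int.sign (y v) : ℂ) * ((t (v - 1) : ℤ) : ℂ) * conj (wm t b l j)
          else 0) := by
      intro j _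
      split_ifs <;> push_cast <;> ring
    rw [Finset.sum_congr rfl this, Finset.sum_add_distrib, Finset.sum_add_distrib,
      Finset.sum_ite_eq', Finset.sum_ite_eq']
    simp
  have h2 : ((t v : ℤ) : ℂ) * conj (wm t b l (v + 1)) = conj (om k b l) * conj (wm t b l v) := by
    rw [wm_succ t b l h, map_mul, map_mul, units_conj]
    linear_combination (conj (om k b l) * conj (wm t b l v)) * units_cast_sq (t v)
  have h3 : ((t (v - 1) : ℤ) : ℂ) * conj (wm t b l (v - 1)) = om k b l * conj (wm t b l v) := by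
    have h4 := wm_succ t b l h (v - 1)
    rw [sub_add_cancel] at h4
    rw [h4, map_mul, map_mul, units_conj]
    have h5 := om_conj_mul k b l
    linear_combination (-((t (v - 1) : ℤ) : ℂ) * conj (wm t b l (v - 1))) * h5
  rw [h1, ← om_add_conj]
  linear_combination (Int.sign (y v) : ℂ) * h2 + (Int.sign (y v) : ℂ) * h3

lemma Zc_norm_le [NeZero k] (t : ZMod k → ℤˣ) (b l : ℕ) (y : ZMod k → ℤ) :
    ‖Zc t b l y‖ ≤ Tt y := by
  unfold Zc Tt
  refine (norm_sum_le _ _).trans (Finset.sum_le_sum (fun j _ => ?_))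
  rw [norm_mul, RCLike.norm_conj, wm_norm, mul_one, Complex.norm_intCast]

lemma sst_T_le [NeZero k] (t : ZMod k → ℤˣ) (y : ZMod k → ℤ) (v : ZMod k) :
    Tt (sst t y v) ≤ Tt y + 2 := by
  unfold Tt
  have hu : ∀ (s : ℤ) (a : ℤˣ), |((Int.sign s * a : ℤ) : ℝ)| ≤ 1 := by
    intro s a
    rcases Int.units_eq_one_or a with h | h <;>
      rcases Int.sign_trichotomy s with h2 | h2 | h2 <;> simp [h, h2]
  have : ∀ u ∈ (univ : Finset (ZMod k)), |(sst t y v u : ℝ)| ≤
      |(y u : ℝ)| + (if u = v + 1 then 1 else 0) + (if u = v - 1 then 1 else 0) := by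
    intro u _
    unfold sst
    push_cast
    refine (abs_add_le _ _).trans (add_le_add ((abs_add_le _ _).trans (add_le_add le_rfl ?_)) ?_)
    · split_ifs
      · have := hu (y v) (t v); push_cast at this; exact this
      · simp
    · split_ifs
      · have := hu (y v) (t (v - 1)); push_cast at this; exact this
      · simp
  refine (Finset.sum_le_sum this).trans (le_of_eq ?_)
  rw [Finset.sum_add_distrib, Finset.sum_add_distrib]
  simp
  ring

/-- the direction of the jump of the mode `l` -/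
noncomputable def uu [NeZero k] (t : ZMod k → ℤˣ) (b l : ℕ) (y : St k) (v : ZMod k) : ℂ :=
  if y.1 v = 0 then 1 else (Int.sign (y.1 v) : ℂ) * conj (wm t b l v)

lemma uu_norm [NeZero k] (t : ZMod k → ℤˣ) (b l : ℕ) (y : St k) (v : ZMod k) :
    ‖uu t b l y v‖ = 1 := by
  unfold uu
  split_ifs with h
  · simp
  · rw [norm_mul, RCLike.norm_conj, wm_norm, mul_one]
    rcases lt_or_gt_of_ne h with h1 | h1
    · rw [Int.sign_eq_neg_one_of_neg h1]; simp
    · rw [Int.sign_eq_one_of_pos h1]; simp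

lemma uu_avg [NeZero k] (hk : 3 ≤ k) (t : ZMod k → ℤˣ) (b l : ℕ) (y : St k) :
    ∑ v, (((SC hk t).q y v : ℝ) : ℂ) * uu t b l y v = Zc t b l y.1 / (Tt y.1 : ℝ) := by
  unfold Zc
  rw [Finset.sum_div]
  refine Finset.sum_congr rfl (fun v _ => ?_)
  show (((|(y.1 v : ℝ)| / Tt y.1 : ℝ)) : ℂ) * uu t b l y v = _
  unfold uu
  split_ifs with h
  · simp [h]
  · rcases lt_or_gt_of_ne h with h1 | h1
    · rw [Int.sign_eq_neg_one_of_neg h1]
      have h2 : |(y.1 v : ℝ)| = -(y.1 v : ℝ) := abs_of_neg (by exact_mod_cast h1)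
      rw [h2]
      push_cast
      ring
    · rw [Int.sign_eq_one_of_pos h1]
      have h2 : |(y.1 v : ℝ)| = (y.1 v : ℝ) := abs_of_pos (by exact_mod_cast h1)
      rw [h2]
      push_cast
      ring

lemma uu_st [NeZero k] (hk : 3 ≤ k) (t : ZMod k → ℤˣ) (b l : ℕ) (h : Pp t k = (-1) ^ b)
    (y : St k) (v : ZMod k) (hv : (SC hk t).q y v ≠ 0) :
    Zc t b l ((SC hk t).st y v).1 = Zc t b l y.1 + (lm k b l : ℝ) * uu t b l y v := by
  have h1 : y.1 v ≠ 0 := by
    intro h2
    apply hv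
    show |(y.1 v : ℝ)| / Tt y.1 = 0
    rw [h2]; simp
  show Zc t b l (sst t y.1 v) = _
  rw [Zc_sst t b l h]
  unfold uu
  rw [if_neg h1]

/-- second moment identity for one mode -/
lemma avg_mode [NeZero k] (hk : 3 ≤ k) (t : ZMod k → ℤˣ) (b l : ℕ) (h : Pp t k = (-1) ^ b)
    (y : St k) : (SC hk t).avg (fun z => Complex.normSq (Zc t b l z.1)) y =
      Complex.normSq (Zc t b l y.1) * (1 + 2 * lm k b l / Tt y.1) + lm k b l ^ 2 := by
  set Z := Zc t b l y.1 with hZ
  have hr : ∑ v, (SC hk t).q y v * (conj Z * uu t b l y v).re =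
      Complex.normSq Z / Tt y.1 := by
    have h0 : ∑ v, (SC hk t).q y v * (conj Z * uu t b l y v).re =
        (conj Z * ∑ v, (((SC hk t).q y v : ℝ) : ℂ) * uu t b l y v).re := by
      rw [Finset.mul_sum, Complex.re_sum]
      refine Finset.sum_congr rfl (fun v _ => ?_)
      rw [show conj Z * ((((SC hk t).q y v : ℝ) : ℂ) * uu t b l y v) =
        (((SC hk t).q y v : ℝ) : ℂ) * (conj Z * uu t b l y v) by ring, Complex.re_ofReal_mul]
    rw [h0, uu_avg hk t b l y, ← hZ]
    have h2 : conj Z * (Z / (Tt y.1 : ℂ)) = ((Complex.normSq Z / Tt y.1 : ℝ) : ℂ) := by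
      push_cast
      rw [Complex.normSq_eq_conj_mul_self]
      ring
    rw [h2, Complex.ofReal_re]
  have h3 : (SC hk t).avg (fun z => Complex.normSq (Zc t b l z.1)) y =
      ∑ v, ((SC hk t).q y v * Complex.normSq Z +
        2 * lm k b l * ((SC hk t).q y v * (conj Z * uu t b l y v).re) +
        (SC hk t).q y v * lm k b l ^ 2) := by
    unfold Ch.avg
    refine Finset.sum_congr rfl (fun v _ => ?_)
    by_cases hv : (SC hk t).q y v = 0
    · simp [hv]
    · beta_reduce
      rw [uu_st hk t b l h y v hv, ← hZ, Complex.normSq_add]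
      have h4 : Complex.normSq ((lm k b l : ℝ) * uu t b l y v) = lm k b l ^ 2 := by
        rw [Complex.normSq_mul, Complex.normSq_ofReal, Complex.normSq_eq_norm_sq, uu_norm]
        ring
      have h5 : (Z * conj (((lm k b l : ℝ) : ℂ) * uu t b l y v)).re
          = lm k b l * (conj Z * uu t b l y v).re := by
        rw [← Complex.conj_re, map_mul, Complex.conj_conj,
          show conj Z * (((lm k b l : ℝ) : ℂ) * uu t b l y v) =
            ((lm k b l : ℝ) : ℂ) * (conj Z * uu t b l y v) by ring, Complex.re_ofReal_mul]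
      rw [h4, h5]
      ring
  rw [h3, Finset.sum_add_distrib, Finset.sum_add_distrib, ← Finset.sum_mul, ← Finset.mul_sum,
    ← Finset.sum_mul, (SC hk t).q_sum, hr]
  ring

/-- the nontop part -/
noncomputable def Qn [NeZero k] (t : ZMod k → ℤˣ) (b : ℕ) (y : ZMod k → ℤ) : ℝ :=
  ∑ l ∈ Nt k b, Complex.normSq (Zc t b l y)

lemma Qn_nonneg [NeZero k] (t : ZMod k → ℤˣ) (b : ℕ) (y : ZMod k → ℤ) : 0 ≤ Qn t b y :=
  Finset.sum_nonneg (fun _ _ => Complex.normSq_nonneg _)

lemma Nt_card_le (k b : ℕ) : (Nt k b).card ≤ k :=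
  (Finset.card_filter_le _ _).trans (by simp)

lemma lm_zero_gt {k b : ℕ} (hb : b ≤ 1) (hk : 3 ≤ k) (hkb : b = 1 → 4 ≤ k) : 1 < lm k b 0 := by
  have hk0 : (0 : ℝ) < k := by
    have : 0 < k := by omega
    exact_mod_cast this
  have hpi := Real.pi_pos
  have e0 : theta k b 0 = Real.pi * b / k := by unfold theta; push_cast; ring_nf
  have h1 : Real.cos (Real.pi / 3) < Real.cos (theta k b 0) := by
    refine Real.cos_lt_cos_of_nonneg_of_le_pi (by rw [e0]; positivity) (by linarith) ?_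
    rw [e0, div_lt_div_iff₀ hk0 (by norm_num)]
    have h2 : (b : ℝ) * 3 < k := by
      have : b * 3 < k := by
        rcases Nat.le_one_iff_eq_zero_or_eq_one.mp hb with h | h
        · omega
        · have := hkb h; omega
      exact_mod_cast this
    nlinarith
  rw [Real.cos_pi_div_three] at h1
  unfold lm
  linarith

/-- the data of the second moment argument -/
lemma exists_Ana [NeZero k] (hk : 3 ≤ k) (t : ZMod k → ℤˣ) (b : ℕ) (hb : b ≤ 1)
    (hkb : b = 1 → 4 ≤ k) (h : Pp t k = (-1) ^ b) :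
    ∃ A : Ana (SC hk t), (∀ y, A.Q y = Qn t b y.1) ∧ (∀ y, A.Z y = Zc t b 0 y.1) := by
  obtain ⟨g, hg, hg2⟩ := exists_gap k b
  set κ : ℝ := min 1 (2 * g / 5) with hκ
  have hκ0 : 0 < κ := lt_min one_pos (by positivity)
  have hκ1 : κ ≤ 1 := min_le_left _ _
  have hκg : 5 * κ ≤ 2 * g := by
    have := min_le_right 1 (2 * g / 5)
    linarith
  have hlam1 := lm_zero_gt hb hk hkb
  have hlam2 := lm_le_two k b 0
  refine ⟨{ T := fun y => Tt y.1, Q := fun y => Qn t b y.1, Z := fun y => Zc t b 0 y.1,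
            u := uu t b 0, lam := lm k b 0, κ := κ, K := 4 * k, lam1 := hlam1, lam2 := hlam2,
            T1 := fun y => Tt_one_le y.2, Ts := fun y v => sst_T_le t y.1 v,
            ZT := fun y => Zc_norm_le t b 0 y.1, hu := uu_norm t b 0,
            Zs := fun y v hv => uu_st hk t b 0 h y v hv, Za := uu_avg hk t b 0,
            Q0 := fun y => Qn_nonneg t b y.1, κ0 := hκ0, κ1 := hκ1,
            K0 := by positivity, Qa := ?_ }, fun y => rfl, fun y => rfl⟩
  intro y
  have hT := Tt_one_le y.2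
  set T := Tt y.1
  have hT0 : 0 < T := by linarith
  have e1 : (SC hk t).avg (fun y => Qn t b y.1) y =
      ∑ l ∈ Nt k b, (SC hk t).avg (fun z => Complex.normSq (Zc t b l z.1)) y := by
    unfold Ch.avg Qn
    rw [Finset.sum_comm]
    exact Finset.sum_congr rfl (fun v _ => by rw [Finset.mul_sum])
  rw [e1]
  have e2 : ∀ l ∈ Nt k b, (SC hk t).avg (fun z => Complex.normSq (Zc t b l z.1)) y ≤
      (1 - κ / T) * (1 + lm k b 0 / T) ^ 2 * Complex.normSq (Zc t b l y.1) + 4 := by
    intro l hl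
    rw [avg_mode hk t b l h y]
    have h1 := hg2 l hl
    have h2 : 1 + 2 * lm k b l / T ≤ (1 - κ / T) * (1 + lm k b 0 / T) ^ 2 := by
      have hx : 0 < 1 / T := by positivity
      have hx1 : 1 / T ≤ 1 := by rw [div_le_one hT0]; exact hT
      set x := 1 / T with hxdef
      have r1 : 2 * lm k b l / T = 2 * lm k b l * x := by rw [hxdef]; ring
      have r2 : κ / T = κ * x := by rw [hxdef]; ring
      have r3 : lm k b 0 / T = lm k b 0 * x := by rw [hxdef]; ring
      rw [r1, r2, r3]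
      have hκx : 0 ≤ 1 - κ * x := by nlinarith
      have h3 : (1 - κ * x) * (1 + 2 * lm k b 0 * x) ≤
          (1 - κ * x) * (1 + lm k b 0 * x) ^ 2 := by
        refine mul_le_mul_of_nonneg_left ?_ hκx
        nlinarith [sq_nonneg (lm k b 0 * x)]
      refine le_trans ?_ h3
      have h4 : 2 * κ * lm k b 0 * x ≤ 4 * κ := by
        have : lm k b 0 * x ≤ 2 := by nlinarith
        nlinarith
      have h5 : 0 ≤ x * (2 * g - κ - 2 * κ * lm k b 0 * x) :=
        mul_nonneg hx.le (by linarith)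
      nlinarith
    have h6 := mul_le_mul_of_nonneg_left h2 (Complex.normSq_nonneg (Zc t b l y.1))
    have h7 := lm_sq_le k b l
    nlinarith
  refine (Finset.sum_le_sum e2).trans ?_
  rw [Finset.sum_add_distrib, ← Finset.mul_sum]
  have e3 : ∑ _l ∈ Nt k b, (4 : ℝ) ≤ 4 * k := by
    rw [Finset.sum_const, nsmul_eq_mul, mul_comm]
    have : ((Nt k b).card : ℝ) ≤ k := by exact_mod_cast Nt_card_le k b
    linarith
  exact add_le_add (le_of_eq rfl) e3

end Pool.H30.Urn
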