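import Pool.Agent.helper30.Urn.Chain

/-!
# The second moment argument

A complex valued function `Z` of the state of a chain which moves by `lam * u`, `‖u‖ = 1`, with mean
drift `lam * Z / T`; `T` grows by at most `2`, and `Q` grows more slowly than `‖Z‖ ^ 2`.  Then the
region `Q < δ ^ 2 * ‖Z‖ ^ 2` is hit with probability bounded below.
-/

namespace Pool.H30.Urn

open Finset Filter Topology
open scoped Classical ComplexConjugate

variable {V α : Type*} [Fintype V]

structure Ana (C : Ch V α) where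
  T : α → ℝ
  Q : α → ℝ
  Z : α → ℂ
  u : α → V → ℂ
  lam : ℝ
  κ : ℝ
  K : ℝ
  lam1 : 1 < lam
  lam2 : lam ≤ 2
  T1 : ∀ y, 1 ≤ T y
  Ts : ∀ y v, T (C.st y v) ≤ T y + 2
  ZT : ∀ y, ‖Z y‖ ≤ T y
  hu : ∀ y v, ‖u y v‖ = 1
  Zs : ∀ y v, C.q y v ≠ 0 → Z (C.st y v) = Z y + lam * u y v
  Za : ∀ y, ∑ v, (C.q y v : ℂ) * u y v = Z y / T y
  Q0 : ∀ y, 0 ≤ Q y
  κ0 : 0 < κ
  κ1 : κ ≤ 1
  K0 : 0 ≤ K
  Qa : ∀ y, C.avg Q y ≤ (1 - κ / T y) * (1 + lam / T y) ^ 2 * Q y + K

namespace Ana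

variable {C : Ch V α} (A : Ana C)

noncomputable def X (y : α) : ℝ := Complex.normSq (A.Z y)

noncomputable def G (y : α) : ℝ := (1 + A.lam / A.T y) ^ 2

/-- the radial part of the jump -/
noncomputable def r (y : α) (v : V) : ℝ := (conj (A.Z y) * A.u y v).re

lemma Tpos (y : α) : 0 < A.T y := lt_of_lt_of_le one_pos (A.T1 y)

lemma X0 (y : α) : 0 ≤ A.X y := Complex.normSq_nonneg _

lemma X_eq (y : α) : A.X y = ‖A.Z y‖ ^ 2 := Complex.normSq_eq_norm_sq _

lemma X_le (y : α) : A.X y ≤ A.T y ^ 2 := by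
  rw [A.X_eq]
  exact pow_le_pow_left₀ (norm_nonneg _) (A.ZT y) 2

lemma G1 (y : α) : 1 ≤ A.G y := by
  have h1 := A.Tpos y
  have h2 : 0 < A.lam / A.T y := div_pos (by linarith [A.lam1]) h1
  unfold G
  nlinarith

lemma G_pos (y : α) : 0 < A.G y := lt_of_lt_of_le one_pos (A.G1 y)

lemma G_ge (y : α) : 1 + 2 * A.lam / A.T y ≤ A.G y := by
  have : A.G y = 1 + 2 * A.lam / A.T y + (A.lam / A.T y) ^ 2 := by unfold G; ring
  rw [this]
  nlinarith [sq_nonneg (A.lam / A.T y)]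

lemma G_sq_ge (y : α) : 1 + 4 * A.lam / A.T y ≤ A.G y ^ 2 := by
  have h := A.G_ge y
  have h0 : 0 < A.lam / A.T y := div_pos (by linarith [A.lam1]) (A.Tpos y)
  have e1 : 2 * A.lam / A.T y = 2 * (A.lam / A.T y) := by ring
  have e2 : 4 * A.lam / A.T y = 4 * (A.lam / A.T y) := by ring
  rw [e1] at h
  rw [e2]
  nlinarith

lemma X_st {y : α} {v : V} (h : C.q y v ≠ 0) :
    A.X (C.st y v) = A.X y + 2 * A.lam * A.r y v + A.lam ^ 2 := by
  unfold X r
  rw [A.Zs y v h, Complex.normSq_add]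
  have h1 : Complex.normSq (A.lam * A.u y v) = A.lam ^ 2 := by
    rw [Complex.normSq_mul, Complex.normSq_ofReal, Complex.normSq_eq_norm_sq, A.hu]
    ring
  rw [h1]
  have h2 : (A.Z y * conj ((A.lam : ℂ) * A.u y v)).re
      = A.lam * (conj (A.Z y) * A.u y v).re := by
    rw [← Complex.conj_re]
    rw [map_mul, Complex.conj_conj]
    rw [show conj (A.Z y) * ((A.lam : ℂ) * A.u y v) = (A.lam : ℂ) * (conj (A.Z y) * A.u y v) by
      ring]
    rw [Complex.re_ofReal_mul]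
  rw [h2]
  ring

lemma r_avg (y : α) : ∑ v, C.q y v * A.r y v = A.X y / A.T y := by
  have h : ∑ v, C.q y v * A.r y v = (conj (A.Z y) * ∑ v, (C.q y v : ℂ) * A.u y v).re := by
    rw [Finset.mul_sum, Complex.re_sum]
    refine Finset.sum_congr rfl (fun v _ => ?_)
    unfold r
    rw [show conj (A.Z y) * ((C.q y v : ℂ) * A.u y v) =
      (C.q y v : ℂ) * (conj (A.Z y) * A.u y v) by ring, Complex.re_ofReal_mul]
  rw [h, A.Za]
  have h2 : conj (A.Z y) * (A.Z y / (A.T y : ℂ)) = ((A.X y / A.T y : ℝ) : ℂ) := by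
    unfold X
    push_cast
    rw [Complex.normSq_eq_conj_mul_self]
    ring
  rw [h2, Complex.ofReal_re]

lemma r_sq (y : α) (v : V) : A.r y v ^ 2 ≤ A.X y := by
  have h : |A.r y v| ≤ ‖A.Z y‖ := by
    unfold r
    refine (Complex.abs_re_le_norm _).trans ?_
    rw [norm_mul, A.hu, mul_one, RCLike.norm_conj]
  rw [A.X_eq, ← sq_abs]
  exact pow_le_pow_left₀ (abs_nonneg _) h 2

lemma avg_congr' {f g : α → ℝ} {y : α} (h : ∀ v, C.q y v ≠ 0 → f (C.st y v) = g (C.st y v)) :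
    C.avg f y = C.avg g y :=
  le_antisymm (C.avg_mono (fun v hv => (h v hv).le)) (C.avg_mono (fun v hv => (h v hv).ge))

lemma avg_X (y : α) : C.avg A.X y = A.X y * (1 + 2 * A.lam / A.T y) + A.lam ^ 2 := by
  have h : C.avg A.X y = ∑ v, (C.q y v * A.X y + 2 * A.lam * (C.q y v * A.r y v) +
      C.q y v * A.lam ^ 2) := by
    unfold Ch.avg
    refine Finset.sum_congr rfl (fun v _ => ?_)
    by_cases hv : C.q y v = 0
    · simp [hv]
    · rw [A.X_st hv]; ring
  rw [h, Finset.sum_add_distrib, Finset.sum_add_distrib, ← Finset.sum_mul, ← Finset.mul_sum,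
    ← Finset.sum_mul, C.q_sum, A.r_avg]
  ring

lemma avg_X2 (y : α) : C.avg (fun z => A.X z ^ 2) y ≤
    A.X y ^ 2 * (1 + 4 * A.lam / A.T y) + 6 * A.lam ^ 2 * A.X y +
      4 * A.lam ^ 3 * (A.X y / A.T y) + A.lam ^ 4 := by
  have h : C.avg (fun z => A.X z ^ 2) y ≤ ∑ v, (C.q y v * (A.X y ^ 2 + 4 * A.lam ^ 2 * A.X y +
      A.lam ^ 4 + 2 * A.lam ^ 2 * A.X y) +
      (4 * A.lam * A.X y + 4 * A.lam ^ 3) * (C.q y v * A.r y v)) := by
    unfold Ch.avg
    refine Finset.sum_le_sum (fun v _ => ?_)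
    by_cases hv : C.q y v = 0
    · simp [hv]
    · beta_reduce
      rw [A.X_st hv]
      have h1 := A.r_sq y v
      have h2 := C.q_nonneg y v
      have h3 : 0 ≤ C.q y v * (4 * A.lam ^ 2 * (A.X y - A.r y v ^ 2)) :=
        mul_nonneg h2 (mul_nonneg (by positivity) (by linarith))
      nlinarith [h3]
  refine h.trans (le_of_eq ?_)
  rw [Finset.sum_add_distrib, ← Finset.sum_mul, ← Finset.mul_sum, C.q_sum, A.r_avg]
  ring

/-- `2 * lam - 2` -/
noncomputable def c : ℝ := 2 * A.lam - 2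

lemma c_pos : 0 < A.c := by unfold c; linarith [A.lam1]

lemma c_le : A.c ≤ 2 := by unfold c; linarith [A.lam2]

noncomputable def τ (y : α) : ℝ := A.T y + 2

lemma τ_pos (y : α) : 0 < A.τ y := by unfold τ; linarith [A.T1 y]

lemma τ_sub (y : α) : 0 ≤ A.τ y - A.c := by unfold τ; linarith [A.T1 y, A.c_le]

lemma τ_st (y : α) (v : V) : A.τ (C.st y v) ≤ A.G y * (A.τ y - A.c) := by
  have h1 : A.τ (C.st y v) ≤ A.T y + 4 := by unfold τ; linarith [A.Ts y v]
  refine h1.trans ?_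
  have h2 := A.G_ge y
  have h3 := A.τ_sub y
  have hT := A.Tpos y
  have h4 : A.τ y - A.c = A.T y + (4 - 2 * A.lam) := by unfold τ c; ring
  have h5 : 0 ≤ 4 - 2 * A.lam := by linarith [A.lam2]
  calc A.T y + 4 ≤ (1 + 2 * A.lam / A.T y) * (A.T y + (4 - 2 * A.lam)) := by
        have h6 : (1 + 2 * A.lam / A.T y) * (A.T y + (4 - 2 * A.lam)) =
          A.T y + 4 + 2 * A.lam / A.T y * (4 - 2 * A.lam) := by
          field_simp
          ring
        rw [h6]
        have h7 : 0 ≤ 2 * A.lam / A.T y := div_nonneg (by linarith [A.lam1]) hT.le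
        nlinarith [mul_nonneg h7 h5]
    _ ≤ A.G y * (A.τ y - A.c) := by
        rw [h4]
        exact mul_le_mul_of_nonneg_right h2 (by linarith)

/-! ### the fourth moment -/

noncomputable def a : ℝ := 40 / A.c
noncomputable def b : ℝ := (4 * A.a + 32) / A.c

lemma a_pos : 0 < A.a := div_pos (by norm_num) A.c_pos
lemma b_pos : 0 < A.b := div_pos (by linarith [A.a_pos]) A.c_pos
lemma ac : A.a * A.c = 40 := div_mul_cancel₀ _ A.c_pos.ne'
lemma bc : A.b * A.c = 4 * A.a + 32 := div_mul_cancel₀ _ A.c_pos.ne'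

noncomputable def S (y : α) : ℝ := A.X y ^ 2 + A.a * (A.X y * A.τ y) + A.b * A.τ y ^ 2

lemma S_ge (y : α) : A.X y ^ 2 ≤ A.S y := by
  unfold S
  have h1 := mul_nonneg A.a_pos.le (mul_nonneg (A.X0 y) (A.τ_pos y).le)
  have h2 := mul_nonneg A.b_pos.le (sq_nonneg (A.τ y))
  linarith

lemma avg_X_le (y : α) : C.avg A.X y ≤ A.G y * (A.X y + 4) := by
  rw [A.avg_X]
  have h1 := A.G_ge y
  have h2 := A.X0 y
  have h3 : A.lam ^ 2 ≤ 4 := by nlinarith [A.lam1, A.lam2]
  have h4 := A.G1 y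
  nlinarith [mul_le_mul_of_nonneg_left h1 h2]

lemma avg_Xτ (y : α) : C.avg (fun z => A.X z * A.τ z) y ≤
    A.G y ^ 2 * ((A.τ y - A.c) * (A.X y + 4)) := by
  have h1 : C.avg (fun z => A.X z * A.τ z) y ≤
      C.avg (fun z => (A.G y * (A.τ y - A.c)) * A.X z) y := by
    refine C.avg_mono (fun v _ => ?_)
    rw [mul_comm]
    exact mul_le_mul_of_nonneg_right (A.τ_st y v) (A.X0 _)
  refine h1.trans ?_
  rw [C.avg_mul]
  calc A.G y * (A.τ y - A.c) * C.avg A.X y
      ≤ A.G y * (A.τ y - A.c) * (A.G y * (A.X y + 4)) :=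
        mul_le_mul_of_nonneg_left (A.avg_X_le y) (mul_nonneg (A.G_pos y).le (A.τ_sub y))
    _ = _ := by ring

lemma avg_ττ (y : α) : C.avg (fun z => A.τ z ^ 2) y ≤
    A.G y ^ 2 * (A.τ y ^ 2 - A.c * A.τ y) := by
  refine C.avg_le (fun v _ => ?_)
  have h1 : A.τ (C.st y v) ^ 2 ≤ (A.G y * (A.τ y - A.c)) ^ 2 :=
    pow_le_pow_left₀ (A.τ_pos _).le (A.τ_st y v) 2
  refine h1.trans ?_
  rw [mul_pow]
  refine mul_le_mul_of_nonneg_left ?_ (sq_nonneg _)
  have h2 := A.τ_sub y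
  have h3 := A.c_pos
  nlinarith

lemma avg_XX (y : α) : C.avg (fun z => A.X z ^ 2) y ≤
    A.G y ^ 2 * (A.X y ^ 2 + 24 * A.X y + 32 * A.T y + 16) := by
  refine (A.avg_X2 y).trans ?_
  have hl1 := A.lam1
  have hl2 := A.lam2
  have h1 := A.G_sq_ge y
  have h2 : A.X y / A.T y ≤ A.T y := by
    rw [div_le_iff₀ (A.Tpos y), ← sq]
    exact A.X_le y
  have h2' : 0 ≤ A.X y / A.T y := div_nonneg (A.X0 y) (A.Tpos y).le
  have h3 : A.lam ^ 2 ≤ 4 := by nlinarith
  have h4 : A.lam ^ 3 ≤ 8 := by nlinarith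
  have h5 : A.lam ^ 4 ≤ 16 := by nlinarith [sq_nonneg (A.lam ^ 2)]
  have h6 : 1 ≤ A.G y ^ 2 := by nlinarith [A.G1 y]
  have hX := A.X0 y
  have e1 : 6 * A.lam ^ 2 * A.X y ≤ 24 * A.X y := by nlinarith
  have e2 : 4 * A.lam ^ 3 * (A.X y / A.T y) ≤ 32 * A.T y := by
    calc 4 * A.lam ^ 3 * (A.X y / A.T y) ≤ 32 * (A.X y / A.T y) := by nlinarith
      _ ≤ 32 * A.T y := by linarith
  have e3 : A.X y ^ 2 * (1 + 4 * A.lam / A.T y) ≤ A.G y ^ 2 * A.X y ^ 2 := by
    rw [mul_comm]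
    exact mul_le_mul_of_nonneg_right h1 (sq_nonneg _)
  have hT := A.Tpos y
  have e4 : 24 * A.X y + 32 * A.T y + 16 ≤ A.G y ^ 2 * (24 * A.X y + 32 * A.T y + 16) := by
    nlinarith
  nlinarith

lemma avg_S (y : α) : C.avg A.S y ≤ A.G y ^ 2 * A.S y := by
  have h0 : C.avg A.S y = C.avg (fun z => A.X z ^ 2) y + A.a * C.avg (fun z => A.X z * A.τ z) y +
      A.b * C.avg (fun z => A.τ z ^ 2) y := by
    rw [← C.avg_mul, ← C.avg_mul, ← C.avg_add, ← C.avg_add]
    rfl
  rw [h0]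
  have h1 := A.avg_XX y
  have h2 := mul_le_mul_of_nonneg_left (A.avg_Xτ y) A.a_pos.le
  have h3 := mul_le_mul_of_nonneg_left (A.avg_ττ y) A.b_pos.le
  have h4 : A.X y ^ 2 + 24 * A.X y + 32 * A.T y + 16 +
      A.a * ((A.τ y - A.c) * (A.X y + 4)) + A.b * (A.τ y ^ 2 - A.c * A.τ y) ≤ A.S y := by
    have e1 := A.ac
    have e2 := A.bc
    have e3 : A.a * ((A.τ y - A.c) * (A.X y + 4)) =
      A.a * (A.X y * A.τ y) + 4 * A.a * A.τ y - (A.a * A.c) * (A.X y + 4) := by ring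
    have e4 : A.b * (A.τ y ^ 2 - A.c * A.τ y) = A.b * A.τ y ^ 2 - (A.b * A.c) * A.τ y := by ring
    rw [e3, e4, e1, e2]
    unfold S
    have hX := A.X0 y
    have hT : A.T y = A.τ y - 2 := by unfold τ; ring
    rw [hT]
    nlinarith
  have h5 := mul_le_mul_of_nonneg_left h4 (sq_nonneg (A.G y))
  nlinarith

/-! ### the recursions -/

noncomputable def Φ : ℕ → α → ℝ
  | 0, y => A.X y
  | n + 1, y => C.avg (Φ n) y / A.G y

noncomputable def Ψ : ℕ → α → ℝ
  | 0, y => A.S y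
  | n + 1, y => C.avg (Ψ n) y / A.G y ^ 2

/-- the weight of `Q` -/
noncomputable def W : ℝ := 2 * A.K / A.c

noncomputable def Om (y : α) : ℝ := A.Q y + A.W * A.τ y

noncomputable def Θ : ℕ → α → ℝ
  | 0, y => A.Om y
  | n + 1, y => C.avg (Θ n) y / A.G y

noncomputable def al (D : α → Prop) : ℕ → α → ℝ
  | 0, y => if D y then 0 else A.X y
  | n + 1, y => if D y then 0 else C.avg (al D n) y / A.G y

lemma Φ_ge (n : ℕ) (y : α) : A.X y ≤ A.Φ n y := by
  induction n generalizing y with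
  | zero => exact le_refl _
  | succ n ih =>
    show A.X y ≤ C.avg (A.Φ n) y / A.G y
    rw [le_div_iff₀ (A.G_pos y)]
    refine le_trans ?_ (C.avg_mono (f := A.X) (fun v _ => ih _))
    rw [A.avg_X]
    have h1 := A.X_le y
    have hT := A.Tpos y
    have h2 : A.X y * (A.lam / A.T y) ^ 2 ≤ A.lam ^ 2 := by
      rw [div_pow, ← mul_div_assoc, div_le_iff₀ (by positivity)]
      nlinarith [sq_nonneg A.lam]
    have h3 : A.X y * A.G y = A.X y * (1 + 2 * A.lam / A.T y) + A.X y * (A.lam / A.T y) ^ 2 := by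
      unfold G; ring
    rw [h3]
    linarith

lemma Φ_nonneg (n : ℕ) (y : α) : 0 ≤ A.Φ n y := (A.X0 y).trans (A.Φ_ge n y)

lemma Ψ_nonneg (n : ℕ) (y : α) : 0 ≤ A.Ψ n y := by
  induction n generalizing y with
  | zero => exact (sq_nonneg _).trans (A.S_ge y)
  | succ n ih =>
    exact div_nonneg (C.avg_nonneg (fun v => ih _)) (sq_nonneg _)

lemma Ψ_le (n : ℕ) (y : α) : A.Ψ n y ≤ A.S y := by
  induction n generalizing y with
  | zero => exact le_refl _
  | succ n ih =>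
    show C.avg (A.Ψ n) y / A.G y ^ 2 ≤ A.S y
    rw [div_le_iff₀ (by have := A.G_pos y; positivity)]
    refine (C.avg_mono (g := A.S) (fun v _ => ih _)).trans ?_
    rw [mul_comm]
    exact A.avg_S y

lemma avg_cs {f a b : α → ℝ} {y : α} (ha : ∀ z, 0 ≤ a z) (hb : ∀ z, 0 ≤ b z)
    (h : ∀ z, f z ^ 2 ≤ a z * b z) : C.avg f y ^ 2 ≤ C.avg a y * C.avg b y := by
  unfold Ch.avg
  refine Finset.sum_sq_le_sum_mul_sum_of_sq_le_mul _
    (fun v _ => mul_nonneg (C.q_nonneg y v) (ha _))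
    (fun v _ => mul_nonneg (C.q_nonneg y v) (hb _)) (fun v _ => ?_)
  have h1 := h (C.st y v)
  have h2 := C.q_nonneg y v
  calc (C.q y v * f (C.st y v)) ^ 2 = C.q y v ^ 2 * f (C.st y v) ^ 2 := by ring
    _ ≤ C.q y v ^ 2 * (a (C.st y v) * b (C.st y v)) :=
      mul_le_mul_of_nonneg_left h1 (sq_nonneg _)
    _ = _ := by ring

lemma Φ_sq (n : ℕ) (y : α) : A.Φ n y ^ 2 ≤ A.Ψ n y := by
  induction n generalizing y with
  | zero => exact A.S_ge y
  | succ n ih =>
    show (C.avg (A.Φ n) y / A.G y) ^ 2 ≤ C.avg (A.Ψ n) y / A.G y ^ 2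
    rw [div_pow]
    refine div_le_div_of_nonneg_right ?_ (sq_nonneg _)
    have h := avg_cs (C := C) (f := A.Φ n) (a := A.Ψ n) (b := fun _ => 1) (y := y)
      (A.Ψ_nonneg n) (fun _ => zero_le_one) (fun z => by rw [mul_one]; exact ih z)
    rwa [C.avg_const, mul_one] at h

lemma al_nonneg (D : α → Prop) (n : ℕ) (y : α) : 0 ≤ A.al D n y := by
  induction n generalizing y with
  | zero =>
    show 0 ≤ if D y then 0 else A.X y
    split_ifs
    · exact le_refl _
    · exact A.X0 y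
  | succ n ih =>
    show 0 ≤ if D y then 0 else C.avg (A.al D n) y / A.G y
    split_ifs
    · exact le_refl _
    · exact div_nonneg (C.avg_nonneg (fun v => ih _)) (A.G_pos y).le

lemma al_le (D : α → Prop) (n : ℕ) (y : α) : A.al D n y ≤ A.Φ n y := by
  induction n generalizing y with
  | zero =>
    show (if D y then 0 else A.X y) ≤ A.X y
    split_ifs
    · exact A.X0 y
    · exact le_refl _
  | succ n ih =>
    show (if D y then 0 else C.avg (A.al D n) y / A.G y) ≤ C.avg (A.Φ n) y / A.G y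
    split_ifs
    · exact A.Φ_nonneg (n + 1) y
    · exact div_le_div_of_nonneg_right (C.avg_mono (fun v _ => ih _)) (A.G_pos y).le

/-- the Cauchy-Schwarz induction -/
lemma ga_sq (D : α → Prop) (n : ℕ) (y : α) :
    (A.Φ n y - A.al D n y) ^ 2 ≤ A.Ψ n y * (1 - C.nh D n y) := by
  induction n generalizing y with
  | zero =>
    show (A.X y - if D y then 0 else A.X y) ^ 2 ≤ A.S y * (1 - if D y then 0 else 1)
    split_ifs
    · simpa using A.S_ge y
    · simp
  | succ n ih =>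
    by_cases hD : D y
    · have h1 : A.al D (n + 1) y = 0 := by
        show (if D y then 0 else C.avg (A.al D n) y / A.G y) = 0
        rw [if_pos hD]
      rw [h1, C.nh_succ, if_pos hD, sub_zero, sub_zero, mul_one]
      exact A.Φ_sq (n + 1) y
    · have h1 : A.al D (n + 1) y = C.avg (A.al D n) y / A.G y := by
        show (if D y then 0 else C.avg (A.al D n) y / A.G y) = _
        rw [if_neg hD]
      have h2 : A.Φ (n + 1) y - A.al D (n + 1) y =
          C.avg (fun z => A.Φ n z - A.al D n z) y / A.G y := by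
        rw [h1, C.avg_sub, sub_div]
        rfl
      have h3 : 1 - C.nh D (n + 1) y = C.avg (fun z => 1 - C.nh D n z) y := by
        rw [C.avg_sub, C.avg_const, C.nh_succ, if_neg hD]
      rw [h2, h3, div_pow]
      show _ ≤ C.avg (A.Ψ n) y / A.G y ^ 2 * _
      rw [div_mul_eq_mul_div]
      refine div_le_div_of_nonneg_right ?_ (sq_nonneg _)
      exact avg_cs (A.Ψ_nonneg n) (fun z => by linarith [C.nh_le_one D n z]) ih

/-! ### decay of the nontop part -/

noncomputable def η : ℝ := min A.κ (A.c / 6)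

lemma η_pos : 0 < A.η := lt_min A.κ0 (by linarith [A.c_pos])
lemma η_le : A.η ≤ A.κ := min_le_left _ _
lemma η_le1 : A.η ≤ 1 := A.η_le.trans A.κ1
lemma η_le6 : 6 * A.η ≤ A.c := by
  have : A.η ≤ A.c / 6 := min_le_right _ _
  linarith

lemma W0 : 0 ≤ A.W := div_nonneg (by linarith [A.K0]) A.c_pos.le
lemma Wc : A.W * A.c = 2 * A.K := div_mul_cancel₀ _ A.c_pos.ne'

lemma Om_nonneg (y : α) : 0 ≤ A.Om y :=
  add_nonneg (A.Q0 y) (mul_nonneg A.W0 (A.τ_pos y).le)

lemma avg_Om (y : α) : C.avg A.Om y ≤ A.G y * ((1 - A.η / A.T y) * A.Om y) := by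
  have h0 : C.avg A.Om y = C.avg A.Q y + A.W * C.avg A.τ y := by
    rw [← C.avg_mul, ← C.avg_add]
    rfl
  rw [h0]
  have h1 := A.Qa y
  have h2 : C.avg A.τ y ≤ A.G y * (A.τ y - A.c) := C.avg_le (fun v _ => A.τ_st y v)
  have h3 := mul_le_mul_of_nonneg_left h2 A.W0
  have hT := A.Tpos y
  have hT1 := A.T1 y
  have hG := A.G1 y
  have hK := A.K0
  have hQ := A.Q0 y
  have hW := A.W0
  have e1 : A.η * (A.W * (A.τ y / A.T y)) ≤ A.K := by
    have h5 : A.τ y / A.T y ≤ 3 := by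
      rw [div_le_iff₀ hT]; unfold τ; linarith
    have h6 : A.η * (A.W * (A.τ y / A.T y)) ≤ A.η * (A.W * 3) :=
      mul_le_mul_of_nonneg_left (mul_le_mul_of_nonneg_left h5 hW) A.η_pos.le
    have h7 : 6 * A.η * A.W ≤ A.c * A.W := mul_le_mul_of_nonneg_right A.η_le6 hW
    have h8 := A.Wc
    nlinarith
  have e2 : A.η / A.T y * A.Q y ≤ A.κ / A.T y * A.Q y :=
    mul_le_mul_of_nonneg_right (div_le_div_of_nonneg_right A.η_le hT.le) hQ
  have e3 : (1 - A.κ / A.T y) * A.Q y + A.K + A.W * (A.τ y - A.c) ≤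
      (1 - A.η / A.T y) * A.Om y := by
    have e4 : (1 - A.η / A.T y) * A.Om y = A.Q y - A.η / A.T y * A.Q y + A.W * A.τ y -
        A.η * (A.W * (A.τ y / A.T y)) := by
      unfold Om; ring
    rw [e4]
    have h8 := A.Wc
    nlinarith
  have e5 := mul_le_mul_of_nonneg_left e3 (A.G_pos y).le
  have e6 : A.K ≤ A.G y * A.K := by nlinarith
  have e7 : (1 - A.κ / A.T y) * (1 + A.lam / A.T y) ^ 2 * A.Q y =
      A.G y * ((1 - A.κ / A.T y) * A.Q y) := by unfold G; ring
  rw [e7] at h1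
  nlinarith

/-- the decay factor -/
noncomputable def ρ (n : ℕ) (t : ℝ) : ℝ := ∏ j ∈ range n, (1 - A.η / (t + 2 * j))

lemma fac_nonneg {t : ℝ} (ht : 1 ≤ t) (j : ℕ) : 0 ≤ 1 - A.η / (t + 2 * j) := by
  have h1 : 1 ≤ t + 2 * (j : ℝ) := by
    have : (0 : ℝ) ≤ j := Nat.cast_nonneg j
    linarith
  rw [sub_nonneg, div_le_one (by linarith)]
  exact A.η_le1.trans h1

lemma ρ_nonneg (n : ℕ) {t : ℝ} (ht : 1 ≤ t) : 0 ≤ A.ρ n t :=
  Finset.prod_nonneg (fun j _ => A.fac_nonneg ht j)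

lemma ρ_mono (n : ℕ) {t t' : ℝ} (ht : 1 ≤ t) (h : t ≤ t') : A.ρ n t ≤ A.ρ n t' := by
  refine Finset.prod_le_prod (fun j _ => A.fac_nonneg ht j) (fun j _ => ?_)
  have hj : (0 : ℝ) ≤ j := Nat.cast_nonneg j
  have h1 : 0 < t + 2 * (j : ℝ) := by linarith
  have : A.η / (t' + 2 * j) ≤ A.η / (t + 2 * j) :=
    div_le_div_of_nonneg_left A.η_pos.le h1 (by linarith)
  linarith

lemma ρ_succ (n : ℕ) (t : ℝ) : A.ρ (n + 1) t = (1 - A.η / t) * A.ρ n (t + 2) := by
  unfold ρ
  rw [Finset.prod_range_succ', mul_comm]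
  congr 1
  · simp
  · refine Finset.prod_congr rfl (fun j _ => ?_)
    push_cast
    ring_nf

lemma ρ_tendsto {t : ℝ} (ht : 1 ≤ t) : Tendsto (fun n => A.ρ n t) atTop (𝓝 0) := by
  have h1 : ∀ n, A.ρ n t ≤ Real.exp (-(A.η / (t + 2)) *
      ∑ i ∈ range n, 1 / ((i : ℝ) + 1)) := by
    intro n
    rw [Finset.mul_sum, Real.exp_sum]
    refine Finset.prod_le_prod (fun j _ => A.fac_nonneg ht j) (fun j _ => ?_)
    have h2 : A.η / (t + 2) * (1 / ((j : ℝ) + 1)) ≤ A.η / (t + 2 * j) := by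
      have hj : (0 : ℝ) ≤ j := Nat.cast_nonneg j
      rw [div_mul_div_comm, mul_one]
      refine div_le_div_of_nonneg_left A.η_pos.le (by linarith) ?_
      nlinarith
    have h3 := Real.add_one_le_exp (-(A.η / (t + 2)) * (1 / ((j : ℝ) + 1)))
    linarith
  refine squeeze_zero (fun n => A.ρ_nonneg n ht) h1 ?_
  refine Real.tendsto_exp_atBot.comp ?_
  have h4 := Real.tendsto_sum_range_one_div_nat_succ_atTop
  have h5 : -(A.η / (t + 2)) < 0 := by
    have := div_pos A.η_pos (show (0 : ℝ) < t + 2 by linarith)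
    linarith
  exact h4.const_mul_atTop_of_neg h5

lemma Θ_le (n : ℕ) (y : α) : A.Θ n y ≤ A.ρ n (A.T y) * A.Om y := by
  induction n generalizing y with
  | zero => simp [Θ, ρ]
  | succ n ih =>
    show C.avg (A.Θ n) y / A.G y ≤ _
    rw [div_le_iff₀ (A.G_pos y)]
    have hT := A.T1 y
    have h1 : C.avg (A.Θ n) y ≤ C.avg (fun z => A.ρ n (A.T y + 2) * A.Om z) y := by
      refine C.avg_mono (fun v _ => (ih _).trans ?_)
      exact mul_le_mul_of_nonneg_right (A.ρ_mono n (A.T1 _) (A.Ts y v)) (A.Om_nonneg _)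
    rw [C.avg_mul] at h1
    refine h1.trans ?_
    refine (mul_le_mul_of_nonneg_left (A.avg_Om y) (A.ρ_nonneg n (by linarith))).trans ?_
    rw [A.ρ_succ]
    apply le_of_eq
    ring

lemma Θ_nonneg (n : ℕ) (y : α) : 0 ≤ A.Θ n y := by
  induction n generalizing y with
  | zero => exact A.Om_nonneg y
  | succ n ih => exact div_nonneg (C.avg_nonneg (fun v => ih _)) (A.G_pos y).le

/-- the near-top region -/
def D (δ : ℝ) (y : α) : Prop := A.Q y < δ ^ 2 * A.X y

lemma al_Θ (δ : ℝ) (n : ℕ) (y : α) : δ ^ 2 * A.al (A.D δ) n y ≤ A.Θ n y := by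
  induction n generalizing y with
  | zero =>
    show δ ^ 2 * (if A.D δ y then 0 else A.X y) ≤ A.Om y
    split_ifs with h
    · rw [mul_zero]; exact A.Om_nonneg y
    · unfold D at h
      push Not at h
      refine h.trans ?_
      unfold Om
      have := mul_nonneg A.W0 (A.τ_pos y).le
      linarith
  | succ n ih =>
    show δ ^ 2 * (if A.D δ y then 0 else C.avg (A.al (A.D δ) n) y / A.G y) ≤ A.Θ (n + 1) y
    split_ifs with h
    · rw [mul_zero]; exact A.Θ_nonneg _ y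
    · show _ ≤ C.avg (A.Θ n) y / A.G y
      rw [← mul_div_assoc, ← C.avg_mul]
      exact div_le_div_of_nonneg_right (C.avg_mono (fun v _ => ih _)) (A.G_pos y).le

/-! ### from a large `X` -/

noncomputable def c3 : ℝ := 1 / (4 * (1 + 48 * A.a + 2304 * A.b))

lemma c3_pos : 0 < A.c3 := by
  have h1 := A.a_pos
  have h2 := A.b_pos
  unfold c3
  positivity

lemma c3_le : A.c3 ≤ 1 := by
  have h1 := A.a_pos
  have h2 := A.b_pos
  unfold c3
  rw [div_le_one (by positivity)]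
  linarith

lemma hit_of_large (δ : ℝ) (hδ : 0 < δ) (y : α) (h : A.T y ≤ 16 * A.X y) :
    A.c3 ≤ 1 - C.nhL (A.D δ) y := by
  have hT := A.T1 y
  have hX : 0 < A.X y := by linarith
  have h1 : Tendsto (fun n => A.ρ n (A.T y) * A.Om y) atTop (𝓝 (0 * A.Om y)) :=
    (A.ρ_tendsto hT).mul_const _
  rw [zero_mul] at h1
  have h2 : ∀ᶠ n in atTop, A.ρ n (A.T y) * A.Om y < δ ^ 2 * (A.X y / 2) :=
    h1.eventually_lt_const (by positivity)
  obtain ⟨n, hn⟩ := h2.exists
  have h3 : A.al (A.D δ) n y ≤ A.X y / 2 := by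
    have h4 := (A.al_Θ δ n y).trans ((A.Θ_le n y).trans hn.le)
    exact le_of_mul_le_mul_left h4 (by positivity)
  have h5 : A.X y / 2 ≤ A.Φ n y - A.al (A.D δ) n y := by
    linarith [A.Φ_ge n y]
  have h6 := A.ga_sq (A.D δ) n y
  have h7 : (A.X y / 2) ^ 2 ≤ A.Ψ n y * (1 - C.nh (A.D δ) n y) :=
    (pow_le_pow_left₀ (by linarith) h5 2).trans h6
  have h8 : 0 ≤ 1 - C.nh (A.D δ) n y := by linarith [C.nh_le_one (A.D δ) n y]
  have h9 : (A.X y / 2) ^ 2 ≤ A.S y * (1 - C.nh (A.D δ) n y) :=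
    h7.trans (mul_le_mul_of_nonneg_right (A.Ψ_le n y) h8)
  have ha := A.a_pos
  have hb := A.b_pos
  have h10 : A.S y ≤ A.X y ^ 2 * (1 + 48 * A.a + 2304 * A.b) := by
    have hτ : A.τ y ≤ 48 * A.X y := by unfold τ; linarith
    have hτ0 := A.τ_pos y
    have e1 : A.X y * A.τ y ≤ 48 * A.X y ^ 2 := by nlinarith
    have e2 : A.τ y ^ 2 ≤ 2304 * A.X y ^ 2 := by nlinarith
    unfold S
    nlinarith
  have h11 : A.X y ^ 2 * (1 / 4) ≤ A.X y ^ 2 *
      ((1 + 48 * A.a + 2304 * A.b) * (1 - C.nh (A.D δ) n y)) := by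
    nlinarith [mul_le_mul_of_nonneg_right h10 h8]
  have h12 : 1 / 4 ≤ (1 + 48 * A.a + 2304 * A.b) * (1 - C.nh (A.D δ) n y) :=
    le_of_mul_le_mul_left h11 (by positivity)
  have h13 : A.c3 ≤ 1 - C.nh (A.D δ) n y := by
    unfold c3
    rw [div_le_iff₀ (by positivity)]
    linarith
  linarith [C.nhL_le (A.D δ) n y]

/-! ### reaching a large `X` -/

/-- the region of large `X` -/
def B (y : α) : Prop := A.T y ≤ 16 * A.X y

noncomputable def e : ℕ → α → ℝ
  | 0, _ => 0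
  | n + 1, y => if A.B y then 0 else 1 + C.avg (e n) y

lemma e_nonneg (n : ℕ) (y : α) : 0 ≤ A.e n y := by
  induction n generalizing y with
  | zero => exact le_refl _
  | succ n ih =>
    show 0 ≤ if A.B y then 0 else 1 + C.avg (A.e n) y
    split_ifs
    · exact le_refl _
    · have := C.avg_nonneg (x := y) (fun v => ih (C.st y v))
      linarith

lemma e_of_B (n : ℕ) {y : α} (h : A.B y) : A.e n y = 0 := by
  cases n with
  | zero => rfl
  | succ n => show (if A.B y then 0 else 1 + C.avg (A.e n) y) = 0; rw [if_pos h]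

lemma e_bound (n : ℕ) (y : α) (h : ¬ A.B y) :
    A.X y + A.lam ^ 2 * A.e n y ≤ (A.T y + 2 * n) / 8 + 8 := by
  induction n generalizing y with
  | zero =>
    unfold B at h
    push Not at h
    show A.X y + A.lam ^ 2 * 0 ≤ _
    have := A.T1 y
    push_cast
    linarith
  | succ n ih =>
    have hB := h
    unfold B at hB
    push Not at hB
    have h1 : A.e (n + 1) y = 1 + C.avg (A.e n) y := by
      show (if A.B y then 0 else 1 + C.avg (A.e n) y) = _
      rw [if_neg h]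
    rw [h1]
    have h2 : A.X y + A.lam ^ 2 ≤ C.avg A.X y := by
      rw [A.avg_X]
      have : 0 ≤ A.X y * (2 * A.lam / A.T y) :=
        mul_nonneg (A.X0 y) (div_nonneg (by linarith [A.lam1]) (A.Tpos y).le)
      linarith
    have h3 : A.X y + A.lam ^ 2 * (1 + C.avg (A.e n) y) ≤
        C.avg (fun z => A.X z + A.lam ^ 2 * A.e n z) y := by
      rw [C.avg_add, C.avg_mul]
      linarith
    refine h3.trans (C.avg_le (fun v hv => ?_))
    by_cases hB' : A.B (C.st y v)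
    · rw [A.e_of_B n hB', mul_zero, add_zero, A.X_st hv]
      have h4 := A.r_sq y v
      have h5 : 2 * A.lam * A.r y v ≤ A.X y + A.lam ^ 2 := by
        nlinarith [sq_nonneg (A.lam - A.r y v)]
      have h6 : A.lam ^ 2 ≤ 4 := by nlinarith [A.lam1, A.lam2]
      have h7 : (0 : ℝ) ≤ n := Nat.cast_nonneg n
      push_cast
      linarith
    · refine (ih _ hB').trans ?_
      have := A.Ts y v
      push_cast
      linarith

lemma e_nh (n : ℕ) (y : α) : n * C.nh A.B n y ≤ A.e n y := by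
  induction n generalizing y with
  | zero => simp [e]
  | succ n ih =>
    rw [C.nh_succ]
    show _ ≤ if A.B y then 0 else 1 + C.avg (A.e n) y
    split_ifs
    · simp
    · rw [← C.avg_mul]
      have h1 : C.avg (fun z => ((n + 1 : ℕ) : ℝ) * C.nh A.B n z) y ≤
          C.avg (fun z => 1 + A.e n z) y := by
        refine C.avg_mono (fun v _ => ?_)
        have h2 := ih (C.st y v)
        have h3 := C.nh_le_one A.B n (C.st y v)
        push_cast
        nlinarith
      rw [C.avg_add, C.avg_const] at h1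
      exact h1

lemma reach (y : α) : ∃ n, C.nh A.B n y ≤ 1 / 2 := by
  by_cases h : A.B y
  · exact ⟨0, by rw [C.nh_zero, if_pos h]; norm_num⟩
  · obtain ⟨n, hn⟩ := exists_nat_ge (max (A.T y) 100)
    have h1 : A.T y ≤ n := (le_max_left _ _).trans hn
    have h2 : (100 : ℝ) ≤ n := (le_max_right _ _).trans hn
    refine ⟨n, ?_⟩
    have h3 := A.e_bound n y h
    have h4 := A.e_nh n y
    have h5 := A.e_nonneg n y
    have h6 : 1 ≤ A.lam ^ 2 := by nlinarith [A.lam1]
    have h7 := A.X0 y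
    have h8 : A.e n y ≤ A.lam ^ 2 * A.e n y := by nlinarith
    have h9 : (n : ℝ) * C.nh A.B n y ≤ n * (1 / 2) := by linarith
    exact le_of_mul_le_mul_left h9 (by linarith)

/-- **the near-top region is hit with probability bounded below** -/
theorem main (δ : ℝ) (hδ : 0 < δ) (y : α) : C.nhL (A.D δ) y ≤ 1 - A.c3 / 2 := by
  have key : ∀ n y, A.c3 * (1 - C.nh A.B n y) ≤ 1 - C.nhL (A.D δ) y := by
    intro n
    induction n with
    | zero =>
      intro y
      rw [C.nh_zero]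
      split_ifs with h
      · rw [sub_zero, mul_one]
        exact A.hit_of_large δ hδ y h
      · have := (C.nhL_le (A.D δ) 0 y).trans (C.nh_le_one _ _ _)
        rw [sub_self, mul_zero]
        linarith
    | succ n ih =>
      intro y
      rw [C.nh_succ]
      split_ifs with h
      · rw [sub_zero, mul_one]
        exact A.hit_of_large δ hδ y h
      · by_cases hD : A.D δ y
        · rw [C.nhL_of_mem _ hD, sub_zero]
          have h1 : 0 ≤ C.avg (C.nh A.B n) y := C.avg_nonneg (fun v => C.nh_nonneg _ _ _)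
          have h2 := A.c3_le
          have h3 := A.c3_pos
          nlinarith
        · rw [C.nhL_of_not _ hD]
          have h1 : A.c3 * (1 - C.avg (C.nh A.B n) y) =
              C.avg (fun z => A.c3 * (1 - C.nh A.B n z)) y := by
            rw [C.avg_mul, C.avg_sub, C.avg_const]
          have h2 : 1 - C.avg (C.nhL (A.D δ)) y = C.avg (fun z => 1 - C.nhL (A.D δ) z) y := by
            rw [C.avg_sub, C.avg_const]
          rw [h1, h2]
          exact C.avg_mono (fun v _ => ih _)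
  obtain ⟨n, hn⟩ := A.reach y
  have h1 := key n y
  have h2 := A.c3_pos
  nlinarith

end Ana

end Pool.H30.Urn
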