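import Pool.Agent.helper30.Urn.Modes

/-!
# Signs of a configuration which is near a top mode
-/

namespace Pool.H30.Urn

open Finset Filter Topology
open scoped Classical ComplexConjugate

variable {k : ℕ}

noncomputable def sb (k b : ℕ) : ℝ := if b = 0 then 1 else Real.sin (Real.pi / (2 * k))

noncomputable def dl (k b : ℕ) : ℝ := sb k b / √k

lemma sb_pos (hk : 3 ≤ k) (b : ℕ) : 0 < sb k b := by
  unfold sb
  split_ifs
  · norm_num
  · have hk3 : (3 : ℝ) ≤ k := by exact_mod_cast hk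
    have hpi := Real.pi_pos
    refine Real.sin_pos_of_pos_of_lt_pi (by positivity) ?_
    rw [div_lt_iff₀ (by linarith)]
    nlinarith

lemma dl_pos (hk : 3 ≤ k) (b : ℕ) : 0 < dl k b := by
  have hk3 : (3 : ℝ) ≤ k := by exact_mod_cast hk
  exact div_pos (sb_pos hk b) (Real.sqrt_pos.mpr (by linarith))

lemma rem_bound [NeZero k] (hk : 3 ≤ k) (t : ZMod k → ℤˣ) (b : ℕ) (y : ZMod k → ℤ)
    (hD : Qn t b y < dl k b ^ 2 * Complex.normSq (Zc t b 0 y)) (i : ZMod k) :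
    ‖∑ l ∈ Nt k b, Zc t b l y * wm t b l i‖ < sb k b * ‖Zc t b 0 y‖ := by
  have hk3 : (3 : ℝ) ≤ k := by exact_mod_cast hk
  have h1 : ‖∑ l ∈ Nt k b, Zc t b l y * wm t b l i‖ ≤ ∑ l ∈ Nt k b, ‖Zc t b l y‖ := by
    refine (norm_sum_le _ _).trans (Finset.sum_le_sum (fun l _ => ?_))
    rw [norm_mul, wm_norm, mul_one]
  refine lt_of_le_of_lt h1 ?_
  refine lt_of_pow_lt_pow_left₀ 2 (mul_nonneg (sb_pos hk b).le (norm_nonneg _)) ?_
  have h2 : (∑ l ∈ Nt k b, ‖Zc t b l y‖) ^ 2 ≤ (Nt k b).card * ∑ l ∈ Nt k b, ‖Zc t b l y‖ ^ 2 :=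
    sq_sum_le_card_mul_sum_sq
  have h3 : ∑ l ∈ Nt k b, ‖Zc t b l y‖ ^ 2 = Qn t b y := by
    unfold Qn
    exact Finset.sum_congr rfl (fun l _ => by rw [Complex.normSq_eq_norm_sq])
  rw [h3] at h2
  have h4 : ((Nt k b).card : ℝ) ≤ k := by exact_mod_cast Nt_card_le k b
  have h5 := Qn_nonneg t b y
  have h6 : (k : ℝ) * dl k b ^ 2 = sb k b ^ 2 := by
    unfold dl
    rw [div_pow, Real.sq_sqrt (by linarith)]
    field_simp
  calc (∑ l ∈ Nt k b, ‖Zc t b l y‖) ^ 2 ≤ (Nt k b).card * Qn t b y := h2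
    _ ≤ k * Qn t b y := mul_le_mul_of_nonneg_right h4 h5
    _ < k * (dl k b ^ 2 * Complex.normSq (Zc t b 0 y)) :=
      mul_lt_mul_of_pos_left hD (by linarith)
    _ = (k * dl k b ^ 2) * ‖Zc t b 0 y‖ ^ 2 := by rw [Complex.normSq_eq_norm_sq]; ring
    _ = _ := by rw [h6, mul_pow]

lemma norm_pos_of_near [NeZero k] (hk : 3 ≤ k) (t : ZMod k → ℤˣ) (b : ℕ) (y : ZMod k → ℤ)
    (hD : Qn t b y < dl k b ^ 2 * Complex.normSq (Zc t b 0 y)) : 0 < ‖Zc t b 0 y‖ := by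
  have h := rem_bound hk t b y hD 0
  have h1 := (norm_nonneg _).trans_lt h
  exact (pos_iff_pos_of_mul_pos h1).mp (sb_pos hk b)

lemma units_sq_real (a : ℤˣ) : ((a : ℤ) : ℝ) * ((a : ℤ) : ℝ) = 1 := by
  rcases Int.units_eq_one_or a with h | h <;> simp [h]

lemma range_zero (k : ℕ) (hk : 3 ≤ k) : range k = insert 0 (Nt k 0) := by
  ext l
  unfold Nt
  simp only [Finset.mem_range, Finset.mem_insert, Finset.mem_filter]
  omega

lemma range_one (k : ℕ) (hk : 3 ≤ k) : range k = insert 0 (insert (k - 1) (Nt k 1)) := by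
  ext l
  unfold Nt
  simp only [Finset.mem_range, Finset.mem_insert, Finset.mem_filter]
  omega

lemma om_zero_zero (k : ℕ) : om k 0 0 = 1 := by
  unfold om theta
  simp

lemma sign0 [NeZero k] (hk : 3 ≤ k) (t : ZMod k → ℤˣ) (h : Pp t k = (-1) ^ 0) (y : ZMod k → ℤ)
    (hD : Qn t 0 y < dl k 0 ^ 2 * Complex.normSq (Zc t 0 0 y)) :
    ∃ x : ℝ, ∀ r : ℕ, 0 < x * ((Pp t r : ℤ) : ℝ) * (y (r : ZMod k) : ℝ) := by
  have hk0 : k ≠ 0 := by omega
  have hkr : (0 : ℝ) < k := by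
    have : 0 < k := by omega
    exact_mod_cast this
  have hW : ∀ r, Wn t 0 0 r = ((Pp t r : ℤ) : ℂ) := by
    intro r
    unfold Wn
    rw [om_zero_zero, one_pow, mul_one]
  have hZ : Zc t 0 0 y = ((∑ j, (y j : ℝ) * ((Pp t j.val : ℤ) : ℝ) : ℝ) : ℂ) := by
    unfold Zc wm
    push_cast
    refine Finset.sum_congr rfl (fun j _ => ?_)
    rw [hW, units_conj]
  set x : ℝ := ∑ j, (y j : ℝ) * ((Pp t j.val : ℤ) : ℝ) with hx
  refine ⟨x, fun r => ?_⟩
  have h1 := inversion t 0 y (r : ZMod k)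
  rw [range_zero k hk, Finset.sum_insert (by simp [Nt]), wm_natCast t 0 0 hk0 h, hW, hZ] at h1
  have h2 := rem_bound hk t 0 y hD (r : ZMod k)
  have h3 : ∑ l ∈ Nt k 0, Zc t 0 l y * wm t 0 l (r : ZMod k) =
      (((k : ℝ) * (y (r : ZMod k) : ℝ) - x * ((Pp t r : ℤ) : ℝ) : ℝ) : ℂ) := by
    push_cast
    rw [h1]
    ring
  rw [h3, hZ, Complex.norm_real, Complex.norm_real] at h2
  have h4 : sb k 0 = 1 := by simp [sb]
  rw [h4, one_mul, Real.norm_eq_abs, Real.norm_eq_abs] at h2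
  have h5 := sq_lt_sq.mpr h2
  have h6 := units_sq_real (Pp t r)
  set p : ℝ := ((Pp t r : ℤ) : ℝ)
  set z : ℝ := (y (r : ZMod k) : ℝ)
  have h7 : (k * z - x * p) ^ 2 = (k * z) ^ 2 - 2 * k * (x * p * z) + x ^ 2 * (p * p) := by ring
  rw [h7, h6] at h5
  have h8 : 0 < k * (x * p * z) := by nlinarith [sq_nonneg (k * z)]
  exact (pos_iff_pos_of_mul_pos h8).mp hkr

lemma om_last (k : ℕ) (hk : 3 ≤ k) : om k 1 (k - 1) = conj (om k 1 0) := by
  unfold om theta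
  rw [← Complex.exp_conj, map_mul, Complex.conj_ofReal, Complex.conj_I]
  have hk' : (k : ℂ) ≠ 0 := Nat.cast_ne_zero.mpr (by omega)
  have hc : ((k - 1 : ℕ) : ℝ) = (k : ℝ) - 1 := by
    rw [Nat.cast_sub (by omega)]; norm_num
  have h : (((Real.pi * (2 * ((k - 1 : ℕ) : ℝ) + ((1 : ℕ) : ℝ)) / (k : ℝ) : ℝ) : ℂ)) * Complex.I =
      (((Real.pi * (2 * ((0 : ℕ) : ℝ) + ((1 : ℕ) : ℝ)) / (k : ℝ) : ℝ) : ℂ)) * -Complex.I +
        2 * Real.pi * Complex.I := by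
    rw [hc]
    push_cast
    field_simp
    ring
  rw [h, Complex.exp_add, Complex.exp_two_pi_mul_I, mul_one]

lemma Wn_last (hk : 3 ≤ k) (t : ZMod k → ℤˣ) (r : ℕ) :
    Wn t 1 (k - 1) r = conj (Wn t 1 0 r) := by
  unfold Wn
  rw [om_last k hk, map_mul, units_conj, map_pow]

lemma Zc_last [NeZero k] (hk : 3 ≤ k) (t : ZMod k → ℤˣ) (y : ZMod k → ℤ) :
    Zc t 1 (k - 1) y = conj (Zc t 1 0 y) := by
  unfold Zc wm
  rw [map_sum]
  refine Finset.sum_congr rfl (fun j _ => ?_)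
  rw [Wn_last hk, map_mul, map_intCast]

/-- the real part of `Z` times the mode -/
lemma Zw_re (t : ZMod k → ℤˣ) (Z : ℂ) (r : ℕ) : (Z * Wn t 1 0 r).re =
    ((Pp t r : ℤ) : ℝ) * (‖Z‖ * Real.cos (Z.arg + Real.pi * r / k)) := by
  have h1 : Z * Wn t 1 0 r = (((Pp t r : ℤ) : ℝ) : ℂ) *
      ((‖Z‖ : ℂ) * Complex.exp (((Z.arg + Real.pi * r / k : ℝ) : ℂ) * Complex.I)) := by
    unfold Wn om theta
    rw [← Complex.exp_nat_mul]
    conv_lhs => rw [← Complex.norm_mul_exp_arg_mul_I Z]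
    have h2 : (((Z.arg + Real.pi * r / k : ℝ) : ℂ) * Complex.I) =
        (Z.arg : ℂ) * Complex.I + (r : ℂ) *
          (((Real.pi * (2 * ((0 : ℕ) : ℝ) + ((1 : ℕ) : ℝ)) / (k : ℝ) : ℝ) : ℂ) * Complex.I) := by
      push_cast
      ring
    rw [h2, Complex.exp_add]
    push_cast
    ring
  rw [h1, Complex.re_ofReal_mul, Complex.re_ofReal_mul, Complex.exp_ofReal_mul_I_re]

lemma sign1 [NeZero k] (hk : 3 ≤ k) (t : ZMod k → ℤˣ) (h : Pp t k = (-1) ^ 1) (y : ZMod k → ℤ)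
    (hD : Qn t 1 y < dl k 1 ^ 2 * Complex.normSq (Zc t 1 0 y)) :
    ∃ r : ℕ, ∀ j : ℕ, 1 ≤ j → j < k →
      ((Pp t (r + j) : ℤ) : ℝ) * (y ((r + j : ℕ) : ZMod k) : ℝ) < 0 := by
  have hk0 : k ≠ 0 := by omega
  have hkr : (0 : ℝ) < k := by
    have : 0 < k := by omega
    exact_mod_cast this
  have hpi := Real.pi_pos
  set Z := Zc t 1 0 y with hZ
  have hZ0 : 0 < ‖Z‖ := norm_pos_of_near hk t 1 y hD
  set x : ℝ := (5 * Real.pi / 2 - Z.arg) * k / Real.pi with hx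
  have harg := Complex.arg_le_pi Z
  have hx0 : 0 ≤ x := by
    rw [hx]
    refine div_nonneg (mul_nonneg ?_ hkr.le) hpi.le
    linarith
  set r := ⌊x + 1 / 2⌋₊ with hr
  have hr1 : (r : ℝ) ≤ x + 1 / 2 := Nat.floor_le (by linarith)
  have hr2 : x + 1 / 2 < r + 1 := Nat.lt_floor_add_one _
  refine ⟨r, fun j hj1 hj2 => ?_⟩
  have hj1' : (1 : ℝ) ≤ j := by exact_mod_cast hj1
  have hj2' : (j : ℝ) + 1 ≤ k := by exact_mod_cast hj2
  -- the angle
  set u : ℝ := Real.pi / k * ((r : ℝ) - x + j) with hu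
  have hang : Z.arg + Real.pi * ((r + j : ℕ) : ℝ) / k = u + Real.pi / 2 + 2 * Real.pi := by
    have : Real.pi / k * x = 5 * Real.pi / 2 - Z.arg := by
      rw [hx]; field_simp
    rw [hu]
    push_cast
    have e : Real.pi / k * ((r : ℝ) - x + j) = Real.pi / k * (r + j) - Real.pi / k * x := by ring
    rw [e, this]
    ring
  have hcos : Real.cos (Z.arg + Real.pi * ((r + j : ℕ) : ℝ) / k) = - Real.sin u := by
    rw [hang, Real.cos_add_two_pi, Real.cos_add_pi_div_two]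
  have hpk : 0 < Real.pi / k := div_pos hpi hkr
  have hu1 : Real.pi / (2 * k) ≤ u := by
    have : Real.pi / (2 * k) = Real.pi / k * (1 / 2) := by ring
    rw [this, hu]
    exact mul_le_mul_of_nonneg_left (by linarith) hpk.le
  have hu2 : u ≤ Real.pi - Real.pi / (2 * k) := by
    have : Real.pi - Real.pi / (2 * k) = Real.pi / k * (k - 1 / 2) := by field_simp
    rw [this, hu]
    exact mul_le_mul_of_nonneg_left (by linarith) hpk.le
  have hs0 : 0 < Real.pi / (2 * k) := by positivity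
  have hs1 : Real.pi / (2 * k) ≤ Real.pi / 2 := by
    refine div_le_div_of_nonneg_left hpi.le two_pos ?_
    have : (1 : ℝ) ≤ k := by linarith
    linarith
  have hsin : Real.sin (Real.pi / (2 * k)) ≤ Real.sin u := by
    by_cases hc : u ≤ Real.pi / 2
    · exact Real.sin_le_sin_of_le_of_le_pi_div_two (by linarith) hc hu1
    · rw [← Real.sin_pi_sub u]
      push Not at hc
      exact Real.sin_le_sin_of_le_of_le_pi_div_two (by linarith) (by linarith) (by linarith)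
  -- inversion
  have h1 := inversion t 1 y ((r + j : ℕ) : ZMod k)
  have hnot1 : (0 : ℕ) ∉ insert (k - 1) (Nt k 1) := by
    simp only [Nt, Finset.mem_insert, Finset.mem_filter, Finset.mem_range]
    omega
  have hnot2 : (k - 1) ∉ Nt k 1 := by
    simp only [Nt, Finset.mem_filter, Finset.mem_range]
    omega
  rw [range_one k hk, Finset.sum_insert hnot1, Finset.sum_insert hnot2,
    wm_natCast t 1 0 hk0 h, wm_natCast t 1 (k - 1) hk0 h, Wn_last hk, Zc_last hk, ← hZ] at h1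
  have h2 := rem_bound hk t 1 y hD ((r + j : ℕ) : ZMod k)
  set R := ∑ l ∈ Nt k 1, Zc t 1 l y * wm t 1 l ((r + j : ℕ) : ZMod k) with hR
  have h3 : (k : ℝ) * (y ((r + j : ℕ) : ZMod k) : ℝ) =
      2 * (Z * Wn t 1 0 (r + j)).re + R.re := by
    have h4 := congrArg Complex.re h1
    have h5 : ((k : ℂ) * (y ((r + j : ℕ) : ZMod k) : ℂ)).re =
        (k : ℝ) * (y ((r + j : ℕ) : ZMod k) : ℝ) := by
      have : (k : ℂ) * (y ((r + j : ℕ) : ZMod k) : ℂ) =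
        (((k : ℝ) * (y ((r + j : ℕ) : ZMod k) : ℝ) : ℝ) : ℂ) := by push_cast; ring
      rw [this, Complex.ofReal_re]
    rw [h5, Complex.add_re, Complex.add_re, ← map_mul, Complex.conj_re] at h4
    rw [h4]
    ring
  rw [Zw_re, hcos] at h3
  have h6 := units_sq_real (Pp t (r + j))
  set p : ℝ := ((Pp t (r + j) : ℤ) : ℝ) with hp
  set z : ℝ := (y ((r + j : ℕ) : ZMod k) : ℝ) with hz
  have h7 : |p * R.re| < sb k 1 * ‖Z‖ := by
    have hp1 : |p| = 1 := by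
      have : p ^ 2 = 1 := by rw [sq]; exact h6
      have h0 : |p| ^ 2 = 1 := by rw [sq_abs]; exact this
      have h00 := abs_nonneg p
      nlinarith
    rw [abs_mul, hp1, one_mul]
    exact (Complex.abs_re_le_norm _).trans_lt h2
  have hsb : sb k 1 = Real.sin (Real.pi / (2 * k)) := by simp [sb]
  have h8 : p * (k * z) < 0 := by
    rw [h3]
    have h9 : p * (2 * (p * (‖Z‖ * -Real.sin u)) + R.re) =
        (p * p) * (-(2 * ‖Z‖ * Real.sin u)) + p * R.re := by ring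
    rw [h9, h6, one_mul]
    have h10 := (abs_lt.mp h7).2
    rw [hsb] at h10
    have h11 : ‖Z‖ * Real.sin (Real.pi / (2 * k)) ≤ ‖Z‖ * Real.sin u :=
      mul_le_mul_of_nonneg_left hsin hZ0.le
    have h12 : 0 < Real.sin (Real.pi / (2 * k)) := by
      have := sb_pos hk 1
      rwa [hsb] at this
    have h13 : 0 < Real.sin (Real.pi / (2 * k)) * ‖Z‖ := mul_pos h12 hZ0
    nlinarith
  have h14 : k * (p * z) < 0 := by linarith
  by_contra hcon
  push Not at hcon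
  have := mul_nonneg hkr.le hcon
  linarith

lemma edge_pos (t : ZMod k → ℤˣ) (y : ZMod k → ℤ) (x : ℝ) (r : ℕ)
    (h1 : 0 < x * ((Pp t r : ℤ) : ℝ) * (y (r : ZMod k) : ℝ))
    (h2 : 0 < x * ((Pp t (r + 1) : ℤ) : ℝ) * (y ((r + 1 : ℕ) : ZMod k) : ℝ)) :
    0 < y (r : ZMod k) * (t (r : ZMod k) : ℤ) * y ((r : ZMod k) + 1) := by
  have h3 : ((r + 1 : ℕ) : ZMod k) = (r : ZMod k) + 1 := by push_cast; ring
  rw [h3, Pp_succ] at h2
  have h4 := mul_pos h1 h2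
  have h5 := units_sq_real (Pp t r)
  push_cast at h4
  have h6 : 0 < x ^ 2 * ((y (r : ZMod k) : ℝ) * ((t (r : ZMod k) : ℤ) : ℝ) *
      (y ((r : ZMod k) + 1) : ℝ)) := by
    have e : x * ((Pp t r : ℤ) : ℝ) * (y (r : ZMod k) : ℝ) *
        (x * (((Pp t r : ℤ) : ℝ) * ((t (r : ZMod k) : ℤ) : ℝ)) * (y ((r : ZMod k) + 1) : ℝ)) =
        (((Pp t r : ℤ) : ℝ) * ((Pp t r : ℤ) : ℝ)) * (x ^ 2 * ((y (r : ZMod k) : ℝ) *
          ((t (r : ZMod k) : ℤ) : ℝ) * (y ((r : ZMod k) + 1) : ℝ))) := by ring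
    rw [e, h5, one_mul] at h4
    exact h4
  have h7 : 0 < (y (r : ZMod k) : ℝ) * ((t (r : ZMod k) : ℤ) : ℝ) *
      (y ((r : ZMod k) + 1) : ℝ) := by
    by_contra hc
    push Not at hc
    nlinarith [sq_nonneg x]
  exact_mod_cast h7

theorem near0 [NeZero k] (hk : 3 ≤ k) (t : ZMod k → ℤˣ) (h : Pp t k = (-1) ^ 0)
    (y : ZMod k → ℤ) (hD : Qn t 0 y < dl k 0 ^ 2 * Complex.normSq (Zc t 0 0 y)) (r : ℕ) :
    0 < y (r : ZMod k) * (t (r : ZMod k) : ℤ) * y ((r : ZMod k) + 1) := by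
  obtain ⟨x, hx⟩ := sign0 hk t h y hD
  exact edge_pos t y x r (hx r) (hx (r + 1))

theorem near1 [NeZero k] (hk : 3 ≤ k) (t : ZMod k → ℤˣ) (h : Pp t k = (-1) ^ 1)
    (y : ZMod k → ℤ) (hD : Qn t 1 y < dl k 1 ^ 2 * Complex.normSq (Zc t 1 0 y)) :
    ∃ r : ℕ, ∀ j : ℕ, 1 ≤ j → j + 1 < k →
      0 < y ((r + j : ℕ) : ZMod k) * (t ((r + j : ℕ) : ZMod k) : ℤ) *
        y (((r + j : ℕ) : ZMod k) + 1) := by
  obtain ⟨r, hr⟩ := sign1 hk t h y hD
  refine ⟨r, fun j hj1 hj2 => edge_pos t y (-1) (r + j) ?_ ?_⟩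
  · have := hr j hj1 (by omega)
    linarith
  · have := hr (j + 1) (by omega) hj2
    rw [show r + (j + 1) = r + j + 1 by ring] at this
    linarith

end Pool.H30.Urn
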